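import Pool.Agent.H29.ET.Defs

/-! Part AVG (helper91): first and second moments for one coordinate. -/

set_option autoImplicit false

open Finset

namespace ETFar

/-- number of `a` with `σ a = x` -/
noncomputable def secC {s n : ℕ} (σ : Fin s → Fin n) (x : Fin n) : ℝ :=
  ∑ a, if σ a = x then (1 : ℝ) else 0

theorem avg_prod {s n : ℕ} (f : Fin s → Fin n → ℝ) :
    ∑ σ : Fin s → Fin n, ∏ b, f b (σ b) = ∏ b, ∑ z, f b z := by
  rw [Finset.prod_univ_sum, Fintype.piFinset_univ]

theorem avg_one {s n : ℕ} (a : Fin s) (g : Fin n → ℝ) :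
    (n : ℝ) * ∑ σ : Fin s → Fin n, g (σ a) = (n : ℝ) ^ s * ∑ z, g z := by
  have h := avg_prod (fun (b : Fin s) (z : Fin n) => if b = a then g z else (1 : ℝ))
  have h1 : ∀ σ : Fin s → Fin n, ∏ b, (if b = a then g (σ b) else (1 : ℝ)) = g (σ a) := by
    intro σ
    rw [Finset.prod_ite_eq' univ a (fun b => g (σ b))]
    simp
  have h2 : ∏ b : Fin s, ∑ z : Fin n, (if b = a then g z else (1 : ℝ)) =
      (∑ z, g z) * (n : ℝ) ^ (s - 1) := by
    rw [← Finset.mul_prod_erase univ _ (Finset.mem_univ a)]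
    congr 1
    · simp
    · rw [Finset.prod_congr rfl (g := fun _ => (n : ℝ))]
      · rw [Finset.prod_const, Finset.card_erase_of_mem (Finset.mem_univ a), Finset.card_univ,
          Fintype.card_fin]
      · intro b hb
        have hb' : b ≠ a := Finset.ne_of_mem_erase hb
        simp [hb']
  simp only [h1] at h
  rw [h, h2]
  have hs : s = (s - 1) + 1 := by have := a.pos; omega
  have : (n : ℝ) ^ s = (n : ℝ) ^ (s - 1) * n := by
    conv_lhs => rw [hs, pow_succ]
  rw [this]; ring

theorem avg_two {s n : ℕ} (a a' : Fin s) (haa : a ≠ a') (g k : Fin n → ℝ) :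
    (n : ℝ) ^ 2 * ∑ σ : Fin s → Fin n, g (σ a) * k (σ a') =
      (n : ℝ) ^ s * ((∑ z, g z) * ∑ z, k z) := by
  have h := avg_prod (fun (b : Fin s) (z : Fin n) =>
    (if b = a then g z else (1 : ℝ)) * (if b = a' then k z else (1 : ℝ)))
  have h1 : ∀ σ : Fin s → Fin n, ∏ b, ((if b = a then g (σ b) else (1 : ℝ)) *
      (if b = a' then k (σ b) else (1 : ℝ))) = g (σ a) * k (σ a') := by
    intro σ
    rw [Finset.prod_mul_distrib, Finset.prod_ite_eq' univ a (fun b => g (σ b)),
      Finset.prod_ite_eq' univ a' (fun b => k (σ b))]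
    simp
  have h2 : ∏ b : Fin s, ∑ z : Fin n, ((if b = a then g z else (1 : ℝ)) *
      (if b = a' then k z else (1 : ℝ))) =
      (∑ z, g z) * ((∑ z, k z) * (n : ℝ) ^ (s - 2)) := by
    rw [← Finset.mul_prod_erase univ _ (Finset.mem_univ a)]
    have ha' : a' ∈ univ.erase a := Finset.mem_erase.mpr ⟨haa.symm, Finset.mem_univ _⟩
    rw [← Finset.mul_prod_erase (univ.erase a) _ ha']
    congr 1
    · simp [haa]
    · congr 1
      · simp [haa.symm]
      · rw [Finset.prod_congr rfl (g := fun _ => (n : ℝ))]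
        · rw [Finset.prod_const, Finset.card_erase_of_mem ha',
            Finset.card_erase_of_mem (Finset.mem_univ a), Finset.card_univ,
            Fintype.card_fin]
          rfl
        · intro b hb
          have hb' : b ≠ a' := Finset.ne_of_mem_erase hb
          have hb'' : b ≠ a := Finset.ne_of_mem_erase (Finset.mem_of_mem_erase hb)
          simp [hb', hb'']
  simp only [h1] at h
  rw [h, h2]
  have hs : s = (s - 2) + 2 := by
    have h1 := a.isLt
    have h2 := a'.isLt
    have h3 : a.val ≠ a'.val := fun h => haa (Fin.ext h)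
    omega
  have : (n : ℝ) ^ s = (n : ℝ) ^ (s - 2) * (n : ℝ) ^ 2 := by
    conv_lhs => rw [hs, pow_add]
  rw [this]; ring

theorem secC_sum {s n : ℕ} (hn : 1 ≤ n) (x : Fin n) :
    ∑ σ : Fin s → Fin n, secC σ x = (n : ℝ) ^ s * (s / n) := by
  have hn0 : (n : ℝ) ≠ 0 := by positivity
  unfold secC
  rw [Finset.sum_comm]
  have h : ∀ a : Fin s, ∑ σ : Fin s → Fin n, (if σ a = x then (1 : ℝ) else 0) =
      (n : ℝ) ^ s / n := by
    intro a
    have h1 := avg_one a (fun z : Fin n => if z = x then (1 : ℝ) else 0)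
    rw [eq_div_iff hn0, mul_comm]
    rw [h1]
    simp
  simp only [h]
  rw [Finset.sum_const, Finset.card_univ, Fintype.card_fin, nsmul_eq_mul]
  ring

theorem secC_mul {s n : ℕ} (hn : 1 ≤ n) (x y : Fin n) :
    ∑ σ : Fin s → Fin n, secC σ x * secC σ y ≤
      (n : ℝ) ^ s * ((s : ℝ) ^ 2 / (n : ℝ) ^ 2 + (if x = y then (1 : ℝ) else 0) * (s / n)) := by
  have hn0 : (0 : ℝ) < n := by exact_mod_cast hn
  have h1 : ∀ σ : Fin s → Fin n, secC σ x * secC σ y = ∑ a, ∑ a',
      (if σ a = x then (1 : ℝ) else 0) * (if σ a' = y then (1 : ℝ) else 0) := by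
    intro σ
    unfold secC
    rw [Finset.sum_mul_sum]
  simp only [h1]
  rw [Finset.sum_comm]
  have h2 : ∀ a a' : Fin s, ∑ σ : Fin s → Fin n,
      (if σ a = x then (1 : ℝ) else 0) * (if σ a' = y then (1 : ℝ) else 0) ≤
      (n : ℝ) ^ s * (1 / (n : ℝ) ^ 2 + (if a = a' then (1 : ℝ) else 0) *
        ((if x = y then (1 : ℝ) else 0) * (1 / n))) := by
    intro a a'
    by_cases haa : a = a'
    · subst haa
      by_cases hxy : x = y
      · subst hxy
        have h3 : ∀ σ : Fin s → Fin n, (if σ a = x then (1 : ℝ) else 0) *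
            (if σ a = x then (1 : ℝ) else 0) = (if σ a = x then (1 : ℝ) else 0) := by
          intro σ; split_ifs <;> simp
        simp only [h3, if_true]
        have h4 := avg_one a (fun z : Fin n => if z = x then (1 : ℝ) else 0)
        have h5 : ∑ σ : Fin s → Fin n, (if σ a = x then (1 : ℝ) else 0) = (n : ℝ) ^ s * (1 / n) := by
          rw [mul_one_div, eq_div_iff hn0.ne', mul_comm, h4]; simp
        rw [h5]
        apply mul_le_mul_of_nonneg_left _ (by positivity)
        have : 0 ≤ 1 / (n : ℝ) ^ 2 := by positivity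
        linarith
      · have h3 : ∀ σ : Fin s → Fin n, (if σ a = x then (1 : ℝ) else 0) *
            (if σ a = y then (1 : ℝ) else 0) = 0 := by
          intro σ
          by_cases h : σ a = x
          · have : σ a ≠ y := fun h' => hxy (h.symm.trans h')
            simp [this]
          · simp [h]
        simp only [h3, Finset.sum_const_zero]
        positivity
    · have h4 := avg_two a a' haa (fun z : Fin n => if z = x then (1 : ℝ) else 0)
        (fun z : Fin n => if z = y then (1 : ℝ) else 0)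
      have h5 : ∑ σ : Fin s → Fin n, (if σ a = x then (1 : ℝ) else 0) *
          (if σ a' = y then (1 : ℝ) else 0) = (n : ℝ) ^ s * (1 / (n : ℝ) ^ 2) := by
        rw [mul_one_div, eq_div_iff (by positivity), mul_comm, h4]; simp
      rw [h5]
      simp [haa]
  calc ∑ a, ∑ σ : Fin s → Fin n, ∑ a',
        (if σ a = x then (1 : ℝ) else 0) * (if σ a' = y then (1 : ℝ) else 0)
      = ∑ a, ∑ a', ∑ σ : Fin s → Fin n,
        (if σ a = x then (1 : ℝ) else 0) * (if σ a' = y then (1 : ℝ) else 0) :=
        Finset.sum_congr rfl fun a _ => Finset.sum_comm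
    _ ≤ ∑ a : Fin s, ∑ a' : Fin s, (n : ℝ) ^ s * (1 / (n : ℝ) ^ 2 +
        (if a = a' then (1 : ℝ) else 0) * ((if x = y then (1 : ℝ) else 0) * (1 / n))) :=
        Finset.sum_le_sum fun a _ => Finset.sum_le_sum fun a' _ => h2 a a'
    _ = _ := by
        simp only [← Finset.mul_sum, Finset.sum_add_distrib, ← Finset.sum_mul, Finset.sum_ite_eq,
          Finset.mem_univ, if_true, Finset.sum_const, Finset.card_univ, Fintype.card_fin,
          nsmul_eq_mul]
        ring

end ETFar
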