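import Pool.Agent.H29.ET.Defs

open Finset

namespace ETFar

theorem core_card_fiber {A B : Type} [AddCommGroup A] [Fintype A] [AddCommGroup B] [Fintype B]
    [DecidableEq B] (φ : A →+ B) (hφ : Function.Surjective φ) (b : B) :
    Fintype.card B * (univ.filter fun x => φ x = b).card = Fintype.card A := by
  have h1 : ∀ b', (univ.filter fun x => φ x = b').card = (univ.filter fun x => φ x = b).card := by
    intro b'
    obtain ⟨v, hv⟩ := hφ b
    obtain ⟨w, hw⟩ := hφ b'
    refine Finset.card_bij' (fun x _ => x - w + v) (fun x _ => x - v + w) ?_ ?_ ?_ ?_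
    · intro x hx
      simp only [mem_filter, mem_univ, true_and] at hx ⊢
      rw [map_add, map_sub, hx, hw, hv]; abel
    · intro x hx
      simp only [mem_filter, mem_univ, true_and] at hx ⊢
      rw [map_add, map_sub, hx, hw, hv]; abel
    · intro x hx; abel
    · intro x hx; abel
  have h2 : Fintype.card A = ∑ b' : B, (univ.filter fun x => φ x = b').card := by
    rw [← Finset.card_univ]
    exact Finset.card_eq_sum_card_fiberwise (fun x _ => mem_coe.2 (mem_univ (φ x)))
  rw [h2, Finset.sum_congr rfl (fun b' _ => h1 b')]
  simp

theorem core_key {κ G : Type} [Fintype κ] [DecidableEq κ] [AddCommGroup G] [Fintype G]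
    [DecidableEq G] (Y : (κ → G) →+ (κ → G)) (R : Finset κ)
    (surj : ∀ a : κ → G, ∃ v, ∀ c ∈ R, Y v c = a c) (a : κ → G) :
    (univ.filter fun u => ∀ c ∈ R, Y u c = a c).card =
      (univ.filter fun u : κ → G => ∀ c ∈ R, u c = a c).card := by
  classical
  let ρ : (κ → G) →+ (R → G) :=
    { toFun := fun u c => u c, map_zero' := rfl, map_add' := fun _ _ => rfl }
  have hext : ∀ b : R → G, ∃ a' : κ → G, ∀ c : R, a' c = b c := by
    intro b
    refine ⟨fun c => if h : c ∈ R then b ⟨c, h⟩ else 0, ?_⟩
    intro c; simp
  have hρ : Function.Surjective ρ := by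
    intro b
    obtain ⟨a', ha'⟩ := hext b
    exact ⟨a', funext fun c => ha' c⟩
  have hρY : Function.Surjective (ρ.comp Y) := by
    intro b
    obtain ⟨a', ha'⟩ := hext b
    obtain ⟨v, hv⟩ := surj a'
    refine ⟨v, funext fun c => ?_⟩
    show Y v c = b c
    rw [hv c c.2, ha' c]
  have e1 := core_card_fiber ρ hρ (ρ a)
  have e2 := core_card_fiber (ρ.comp Y) hρY (ρ a)
  have s1 : (univ.filter fun u => ∀ c ∈ R, Y u c = a c) =
      (univ.filter fun x => (ρ.comp Y) x = ρ a) := by
    ext u
    simp only [mem_filter, mem_univ, true_and]
    constructor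
    · intro h; funext c; exact h c c.2
    · intro h c hc; exact congrFun h ⟨c, hc⟩
  have s2 : (univ.filter fun u : κ → G => ∀ c ∈ R, u c = a c) =
      (univ.filter fun x => ρ x = ρ a) := by
    ext u
    simp only [mem_filter, mem_univ, true_and]
    constructor
    · intro h; funext c; exact h c c.2
    · intro h c hc; exact congrFun h ⟨c, hc⟩
  rw [s1, s2]
  have hpos : 0 < Fintype.card (R → G) := Fintype.card_pos
  exact Nat.eq_of_mul_eq_mul_left hpos (e2.trans e1.symm)

theorem core_ind {κ G : Type} [Fintype κ] [DecidableEq κ] [AddCommGroup G] [Fintype G]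
    [DecidableEq G]
    (Y : (κ → G) →+ (κ → G)) (Bad : Finset κ → Prop) [DecidablePred Bad]
    (mono : ∀ R S, R ⊆ S → Bad R → Bad S)
    (surj : ∀ R, ¬ Bad R → ∀ a : κ → G, ∃ v, ∀ c ∈ R, Y v c = a c)
    (T : Tree κ G) : ∀ (R : Finset κ), ¬ Bad R → ∀ a : κ → G,
    (univ.filter fun u => (∀ c ∈ R, Y u c = a c) ∧ T.run (Y u) = true).card ≤
      (univ.filter fun u : κ → G => (∀ c ∈ R, u c = a c) ∧ T.run u = true).card +
        (univ.filter fun u => (∀ c ∈ R, u c = a c) ∧ Bad (R ∪ T.cells u)).card := by
  induction T with
  | leaf b =>
    intro R hR a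
    cases b with
    | false => simp [Tree.run]
    | true =>
      have h := core_key Y R (surj R hR) a
      simp only [Tree.run, and_true]
      rw [h]
      exact Nat.le_add_right _ _
  | read c f ih =>
    intro R hR a
    by_cases hc : c ∈ R
    · have h := ih (a c) R hR a
      have e1 : (univ.filter fun u => (∀ c ∈ R, Y u c = a c) ∧
          (Tree.read c f).run (Y u) = true) =
          (univ.filter fun u => (∀ c ∈ R, Y u c = a c) ∧ (f (a c)).run (Y u) = true) := by
        ext u
        simp only [mem_filter, mem_univ, true_and]
        simp only [Tree.run]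
        constructor
        · rintro ⟨h1, h2⟩; rw [h1 c hc] at h2; exact ⟨h1, h2⟩
        · rintro ⟨h1, h2⟩; refine ⟨h1, ?_⟩; rw [h1 c hc]; exact h2
      have e2 : (univ.filter fun u : κ → G => (∀ c ∈ R, u c = a c) ∧
          (Tree.read c f).run u = true) =
          (univ.filter fun u => (∀ c ∈ R, u c = a c) ∧ (f (a c)).run u = true) := by
        ext u
        simp only [mem_filter, mem_univ, true_and]
        simp only [Tree.run]
        constructor
        · rintro ⟨h1, h2⟩; rw [h1 c hc] at h2; exact ⟨h1, h2⟩
        · rintro ⟨h1, h2⟩; refine ⟨h1, ?_⟩; rw [h1 c hc]; exact h2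
      have e3 : (univ.filter fun u : κ → G => (∀ c ∈ R, u c = a c) ∧
          Bad (R ∪ (Tree.read c f).cells u)) =
          (univ.filter fun u => (∀ c ∈ R, u c = a c) ∧ Bad (R ∪ (f (a c)).cells u)) := by
        have hU : ∀ S : Finset κ, R ∪ insert c S = R ∪ S := by
          intro S; ext x; simp only [mem_union, mem_insert]
          constructor
          · rintro (h | rfl | h)
            · exact Or.inl h
            · exact Or.inl hc
            · exact Or.inr h
          · rintro (h | h)
            · exact Or.inl h
            · exact Or.inr (Or.inr h)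
        ext u
        simp only [mem_filter, mem_univ, true_and]
        simp only [Tree.cells, hU]
        constructor
        · rintro ⟨h1, h2⟩; rw [h1 c hc] at h2; exact ⟨h1, h2⟩
        · rintro ⟨h1, h2⟩; refine ⟨h1, ?_⟩; rw [h1 c hc]; exact h2
      rw [e1, e2, e3]
      exact h
    · by_cases hB : Bad (insert c R)
      · have h := core_key Y R (surj R hR) a
        calc (univ.filter fun u => (∀ c ∈ R, Y u c = a c) ∧
              (Tree.read c f).run (Y u) = true).card
            ≤ (univ.filter fun u => ∀ c ∈ R, Y u c = a c).card := by
              apply Finset.card_le_card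
              intro u hu
              simp only [mem_filter, mem_univ, true_and] at hu ⊢
              exact hu.1
          _ = (univ.filter fun u : κ → G => ∀ c ∈ R, u c = a c).card := h
          _ ≤ (univ.filter fun u : κ → G => (∀ c ∈ R, u c = a c) ∧
                Bad (R ∪ (Tree.read c f).cells u)).card := by
              apply Finset.card_le_card
              intro u hu
              simp only [mem_filter, mem_univ, true_and] at hu ⊢
              refine ⟨hu, mono _ _ ?_ hB⟩
              intro x hx
              simp only [mem_insert] at hx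
              simp only [Tree.cells, mem_union, mem_insert]
              rcases hx with h | h
              · exact Or.inr (Or.inl h)
              · exact Or.inl h
          _ ≤ _ := Nat.le_add_left _ _
      · have hS : ∀ g : G, _ := fun g => ih g (insert c R) hB (Function.update a c g)
        have hupd : ∀ (g : G) (w : κ → G),
            (∀ c' ∈ insert c R, w c' = Function.update a c g c') ↔
              ((∀ c' ∈ R, w c' = a c') ∧ w c = g) := by
          intro g w
          constructor
          · intro h
            refine ⟨?_, ?_⟩
            · intro c' hc'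
              have := h c' (mem_insert_of_mem hc')
              rwa [Function.update_of_ne (by rintro rfl; exact hc hc')] at this
            · have := h c (mem_insert_self _ _)
              rwa [Function.update_self] at this
          · rintro ⟨h1, h2⟩ c' hc'
            rcases mem_insert.1 hc' with h | h
            · subst h; rw [Function.update_self]; exact h2
            · rw [Function.update_of_ne (by rintro rfl; exact hc h)]; exact h1 c' h
        have E1 : (univ.filter fun u => (∀ c ∈ R, Y u c = a c) ∧
            (Tree.read c f).run (Y u) = true).card =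
            ∑ g : G, (univ.filter fun u =>
              (∀ c' ∈ insert c R, Y u c' = Function.update a c g c') ∧
                (f g).run (Y u) = true).card := by
          rw [Finset.card_eq_sum_card_fiberwise (f := fun u => Y u c) (t := univ)
            (fun x _ => mem_coe.2 (mem_univ _))]
          refine Finset.sum_congr rfl fun g _ => ?_
          congr 1
          ext u
          simp only [mem_filter, mem_univ, true_and, hupd]
          simp only [Tree.run]
          constructor
          · rintro ⟨⟨h1, h2⟩, h3⟩; rw [h3] at h2; exact ⟨⟨h1, h3⟩, h2⟩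
          · rintro ⟨⟨h1, h3⟩, h2⟩; refine ⟨⟨h1, ?_⟩, h3⟩; rw [h3]; exact h2
        have E2 : (univ.filter fun u : κ → G => (∀ c ∈ R, u c = a c) ∧
            (Tree.read c f).run u = true).card =
            ∑ g : G, (univ.filter fun u : κ → G =>
              (∀ c' ∈ insert c R, u c' = Function.update a c g c') ∧
                (f g).run u = true).card := by
          rw [Finset.card_eq_sum_card_fiberwise (f := fun u => u c) (t := univ)
            (fun x _ => mem_coe.2 (mem_univ _))]
          refine Finset.sum_congr rfl fun g _ => ?_
          congr 1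
          ext u
          simp only [mem_filter, mem_univ, true_and, hupd]
          simp only [Tree.run]
          constructor
          · rintro ⟨⟨h1, h2⟩, h3⟩; rw [h3] at h2; exact ⟨⟨h1, h3⟩, h2⟩
          · rintro ⟨⟨h1, h3⟩, h2⟩; refine ⟨⟨h1, ?_⟩, h3⟩; rw [h3]; exact h2
        have E3 : (univ.filter fun u : κ → G => (∀ c ∈ R, u c = a c) ∧
            Bad (R ∪ (Tree.read c f).cells u)).card =
            ∑ g : G, (univ.filter fun u : κ → G =>
              (∀ c' ∈ insert c R, u c' = Function.update a c g c') ∧
                Bad (insert c R ∪ (f g).cells u)).card := by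
          have hU : ∀ S : Finset κ, R ∪ insert c S = insert c R ∪ S := by
            intro S; ext x; simp only [mem_union, mem_insert]; tauto
          rw [Finset.card_eq_sum_card_fiberwise (f := fun u => u c) (t := univ)
            (fun x _ => mem_coe.2 (mem_univ _))]
          refine Finset.sum_congr rfl fun g _ => ?_
          congr 1
          ext u
          simp only [mem_filter, mem_univ, true_and, hupd]
          simp only [Tree.cells, hU]
          constructor
          · rintro ⟨⟨h1, h2⟩, h3⟩; rw [h3] at h2; exact ⟨⟨h1, h3⟩, h2⟩
          · rintro ⟨⟨h1, h3⟩, h2⟩; refine ⟨⟨h1, ?_⟩, h3⟩; rw [h3]; exact h2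
        rw [E1, E2, E3, ← Finset.sum_add_distrib]
        exact Finset.sum_le_sum fun g _ => hS g

theorem core {κ G : Type} [Fintype κ] [DecidableEq κ] [AddCommGroup G] [Fintype G] [DecidableEq G]
    (Y : (κ → G) →+ (κ → G)) (Bad : Finset κ → Prop) [DecidablePred Bad]
    (mono : ∀ R S, R ⊆ S → Bad R → Bad S)
    (surj : ∀ R, ¬ Bad R → ∀ a : κ → G, ∃ v, ∀ c ∈ R, Y v c = a c)
    (T : Tree κ G) :
    (univ.filter fun u => T.run (Y u) = true).card ≤
      (univ.filter fun u : κ → G => T.run u = true).card +
        (univ.filter fun u => Bad (T.cells u)).card := by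
  by_cases h0 : Bad ∅
  · have : (univ.filter fun u : κ → G => Bad (T.cells u)) = univ := by
      ext u; simp only [mem_filter, mem_univ, true_and, iff_true]
      exact mono _ _ (empty_subset _) h0
    rw [this]
    exact (Finset.card_le_card (subset_univ _)).trans (Nat.le_add_left _ _)
  · have h := core_ind Y Bad mono surj T ∅ h0 0
    simpa using h

end ETFar
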