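import Pool.Agent.H29.ET.Defs

open Finset

namespace ETFar

theorem lw_ineq {α : Type} [Fintype α] (a b c : α → α → ℝ) :
    (∑ x, ∑ y, ∑ z, a x y * b y z * c x z) ^ 2 ≤
      (∑ x, ∑ y, a x y ^ 2) * ((∑ y, ∑ z, b y z ^ 2) * (∑ x, ∑ z, c x z ^ 2)) := by
  have e1 : (∑ x, ∑ y, ∑ z, a x y * b y z * c x z) =
      ∑ p : α × α, a p.1 p.2 * ∑ z, b p.2 z * c p.1 z := by
    rw [Fintype.sum_prod_type]
    refine Finset.sum_congr rfl fun x _ => Finset.sum_congr rfl fun y _ => ?_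
    rw [Finset.mul_sum]
    exact Finset.sum_congr rfl fun z _ => by ring
  have e2 : (∑ x, ∑ y, a x y ^ 2) = ∑ p : α × α, a p.1 p.2 ^ 2 := by
    rw [Fintype.sum_prod_type]
  have e3 : (∑ p : α × α, (∑ z, b p.2 z * c p.1 z) ^ 2) ≤
      (∑ y, ∑ z, b y z ^ 2) * (∑ x, ∑ z, c x z ^ 2) := by
    calc (∑ p : α × α, (∑ z, b p.2 z * c p.1 z) ^ 2)
        ≤ ∑ p : α × α, (∑ z, b p.2 z ^ 2) * (∑ z, c p.1 z ^ 2) :=
          Finset.sum_le_sum fun p _ => Finset.sum_mul_sq_le_sq_mul_sq _ _ _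
      _ = ∑ x, ∑ y, (∑ z, b y z ^ 2) * (∑ z, c x z ^ 2) := by
          rw [Fintype.sum_prod_type]
      _ = (∑ y, ∑ z, b y z ^ 2) * (∑ x, ∑ z, c x z ^ 2) := by
          rw [Finset.mul_sum]
          refine Finset.sum_congr rfl fun x _ => ?_
          rw [Finset.sum_mul]
  rw [e1, e2]
  refine (Finset.sum_mul_sq_le_sq_mul_sq _ _ _).trans ?_
  exact mul_le_mul_of_nonneg_left e3 (Finset.sum_nonneg fun p _ => sq_nonneg _)

open Classical in
theorem ind_sum_le (N : ℕ) [NeZero N] (i : Fin 3) (R : Finset (Fin 3 × ZMod N × ZMod N)) :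
    (∑ x : ZMod N, ∑ y : ZMod N, (if (i, x, y) ∈ R then (1 : ℝ) else 0) ^ 2) ≤ R.card := by
  have e : (∑ x : ZMod N, ∑ y : ZMod N, (if (i, x, y) ∈ R then (1 : ℝ) else 0) ^ 2) =
      ((univ.filter fun p : ZMod N × ZMod N => (i, p) ∈ R).card : ℝ) := by
    rw [Finset.card_filter, Nat.cast_sum, Fintype.sum_prod_type]
    refine Finset.sum_congr rfl fun x _ => Finset.sum_congr rfl fun y _ => ?_
    split_ifs <;> simp
  rw [e]
  have : (univ.filter fun p : ZMod N × ZMod N => (i, p) ∈ R).card ≤ R.card := by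
    refine Finset.card_le_card_of_injOn (fun p => (i, p)) ?_ ?_
    · intro p hp
      simpa using hp
    · intro p _ q _ hpq
      simpa using hpq
  exact_mod_cast this

open Classical in
theorem tri_card (N : ℕ) [NeZero N] (R : Finset (Fin 3 × ZMod N × ZMod N)) :
    ((univ.filter fun t : ZMod N × ZMod N × ZMod N =>
      (0, t.1, t.2.1) ∈ R ∧ (1, t.2.1, t.2.2) ∈ R ∧ (2, t.1, t.2.2) ∈ R).card : ℝ) ≤
      (R.card : ℝ) ^ (3 / 2 : ℝ) := by
  have e : ((univ.filter fun t : ZMod N × ZMod N × ZMod N =>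
      (0, t.1, t.2.1) ∈ R ∧ (1, t.2.1, t.2.2) ∈ R ∧ (2, t.1, t.2.2) ∈ R).card : ℝ) =
      ∑ x : ZMod N, ∑ y : ZMod N, ∑ z : ZMod N,
        (if ((0 : Fin 3), x, y) ∈ R then (1 : ℝ) else 0) *
        (if ((1 : Fin 3), y, z) ∈ R then (1 : ℝ) else 0) *
        (if ((2 : Fin 3), x, z) ∈ R then (1 : ℝ) else 0) := by
    rw [Finset.card_filter, Nat.cast_sum, Fintype.sum_prod_type]
    refine Finset.sum_congr rfl fun x _ => ?_
    rw [Fintype.sum_prod_type]
    refine Finset.sum_congr rfl fun y _ => Finset.sum_congr rfl fun z _ => ?_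
    by_cases h1 : ((0 : Fin 3), x, y) ∈ R <;> by_cases h2 : ((1 : Fin 3), y, z) ∈ R <;>
      by_cases h3 : ((2 : Fin 3), x, z) ∈ R <;> simp [h1, h2, h3]
  have hLW := lw_ineq (α := ZMod N) (fun x y => if ((0 : Fin 3), x, y) ∈ R then (1 : ℝ) else 0)
    (fun y z => if ((1 : Fin 3), y, z) ∈ R then (1 : ℝ) else 0)
    (fun x z => if ((2 : Fin 3), x, z) ∈ R then (1 : ℝ) else 0)
  have i0 := ind_sum_le N 0 R
  have i1 := ind_sum_le N 1 R
  have i2 := ind_sum_le N 2 R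
  have hR0 : (0 : ℝ) ≤ R.card := Nat.cast_nonneg _
  have hpos : ∀ i : Fin 3, (0 : ℝ) ≤
      (∑ x : ZMod N, ∑ y : ZMod N, (if (i, x, y) ∈ R then (1 : ℝ) else 0) ^ 2) :=
    fun i => Finset.sum_nonneg fun x _ => Finset.sum_nonneg fun y _ => sq_nonneg _
  rw [e]
  set S : ℝ := ∑ x : ZMod N, ∑ y : ZMod N, ∑ z : ZMod N,
        (if ((0 : Fin 3), x, y) ∈ R then (1 : ℝ) else 0) *
        (if ((1 : Fin 3), y, z) ∈ R then (1 : ℝ) else 0) *
        (if ((2 : Fin 3), x, z) ∈ R then (1 : ℝ) else 0) with hSdef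
  have hS : S ^ 2 ≤ (R.card : ℝ) ^ 3 := by
    refine hLW.trans ?_
    have h2 : (∑ y : ZMod N, ∑ z : ZMod N, (if ((1 : Fin 3), y, z) ∈ R then (1 : ℝ) else 0) ^ 2) *
      (∑ x : ZMod N, ∑ z : ZMod N, (if ((2 : Fin 3), x, z) ∈ R then (1 : ℝ) else 0) ^ 2) ≤
        (R.card : ℝ) * R.card := mul_le_mul i1 i2 (hpos 2) hR0
    calc _ ≤ (R.card : ℝ) * ((R.card : ℝ) * R.card) :=
          mul_le_mul i0 h2 (mul_nonneg (hpos 1) (hpos 2)) hR0
      _ = (R.card : ℝ) ^ 3 := by ring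
  have h3 : ((R.card : ℝ) ^ (3 / 2 : ℝ)) ^ 2 = (R.card : ℝ) ^ 3 := by
    rw [← Real.rpow_natCast, ← Real.rpow_mul hR0, ← Real.rpow_natCast]
    norm_num
  have h4 : S ^ 2 ≤ ((R.card : ℝ) ^ (3 / 2 : ℝ)) ^ 2 := by rw [h3]; exact hS
  exact le_of_sq_le_sq h4 (Real.rpow_nonneg hR0 _)

open Classical in
theorem bad_count1 (N h r : ℕ) [NeZero N] (R : Finset (Fin 3 × ZMod N × ZMod N)) :
    ((univ.filter fun s => Bad N h r s R).card : ℝ) ≤ h * r * (R.card : ℝ) ^ (3 / 2 : ℝ) := by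
  set T := univ.filter fun t : ZMod N × ZMod N × ZMod N =>
      (0, t.1, t.2.1) ∈ R ∧ (1, t.2.1, t.2.2) ∈ R ∧ (2, t.1, t.2.2) ∈ R with hT
  let F : ZMod N × ZMod N × ZMod N → Finset (ZMod N × ZMod N × ZMod N) := fun t =>
    univ.filter fun s => (t.1 - s.1).val < h ∧ (t.2.1 - s.2.1).val < r ∧
      s.2.2 = t.2.2 - t.1 - t.2.1
  have hF : ∀ t, (F t).card ≤ h * r := by
    intro t
    have : (F t).card ≤ (range h ×ˢ range r).card := by
      refine Finset.card_le_card_of_injOn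
        (fun s => ((t.1 - s.1).val, (t.2.1 - s.2.1).val)) ?_ ?_
      · intro s hs
        have hs' : s ∈ F t := hs
        simp only [F, mem_filter, mem_univ, true_and] at hs'
        simp only [coe_product, Set.mem_prod, mem_coe, mem_range]
        exact ⟨hs'.1, hs'.2.1⟩
      · intro s hs s' hs' heq
        have h1 : s ∈ F t := hs
        have h2 : s' ∈ F t := hs'
        simp only [F, mem_filter, mem_univ, true_and] at h1 h2
        simp only [Prod.mk.injEq] at heq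
        have e1 := ZMod.val_injective N heq.1
        have e2 := ZMod.val_injective N heq.2
        have e1' : s.1 = s'.1 := sub_right_injective e1
        have e2' : s.2.1 = s'.2.1 := sub_right_injective e2
        have e3' : s.2.2 = s'.2.2 := by rw [h1.2.2, h2.2.2]
        exact Prod.ext e1' (Prod.ext e2' e3')
    simpa using this
  have hsub : (univ.filter fun s => Bad N h r s R) ⊆ T.biUnion F := by
    intro s hs
    simp only [mem_filter, mem_univ, true_and] at hs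
    obtain ⟨x, y, hp, h0, h1, h2⟩ := hs
    rw [mem_biUnion]
    refine ⟨(x, y, x + y + s.2.2), ?_, ?_⟩
    · simp only [hT, mem_filter, mem_univ, true_and]
      exact ⟨h0, h1, h2⟩
    · simp only [F, mem_filter, mem_univ, true_and]
      refine ⟨hp.1, hp.2, ?_⟩
      abel
  have hcard : (univ.filter fun s => Bad N h r s R).card ≤ T.card * (h * r) := by
    calc (univ.filter fun s => Bad N h r s R).card ≤ (T.biUnion F).card :=
          Finset.card_le_card hsub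
      _ ≤ T.card * (h * r) := Finset.card_biUnion_le_card_mul _ _ _ fun t _ => hF t
  have hT2 : (T.card : ℝ) ≤ (R.card : ℝ) ^ (3 / 2 : ℝ) := tri_card N R
  calc ((univ.filter fun s => Bad N h r s R).card : ℝ) ≤ ((T.card * (h * r) : ℕ) : ℝ) := by
        exact_mod_cast hcard
    _ = (h * r : ℝ) * T.card := by push_cast; ring
    _ ≤ h * r * (R.card : ℝ) ^ (3 / 2 : ℝ) :=
        mul_le_mul_of_nonneg_left hT2 (by positivity)

end ETFar
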