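import Pool.Agent.H29.ET.Defs

open Finset

namespace ETFar

private theorem interval_card2 (N r : ℕ) [NeZero N] (y : ZMod N) :
    (univ.filter fun β : ZMod N => (y - β).val < r).card ≤ r := by
  calc (univ.filter fun β : ZMod N => (y - β).val < r).card ≤ (range r).card := by
        refine Finset.card_le_card_of_injOn (fun β => (y - β).val) ?_ ?_
        · intro β hβ; simpa using hβ
        · intro β _ β' _ hb
          have h1 : y - β = y - β' := ZMod.val_injective N hb
          exact sub_right_injective h1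
    _ = r := card_range r

open Classical in
theorem bad_count2 (N h r : ℕ) [NeZero N] (R : Finset (Fin 3 × ZMod N × ZMod N)) :
    ((univ.filter fun s => Bad N h r s R).card : ℝ) ≤ h * N * √r * R.card := by
  set D0 : ZMod N → Finset (ZMod N) := fun x => univ.filter fun y => ((0 : Fin 3), x, y) ∈ R
    with hD0
  set D2 : ZMod N → Finset (ZMod N) := fun x => univ.filter fun z => ((2 : Fin 3), x, z) ∈ R
    with hD2
  set A : ZMod N → Finset (ZMod N) := fun x => univ.filter fun α => (x - α).val < h with hA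
  set B : ZMod N → Finset (ZMod N × ZMod N) := fun x => univ.filter fun bd =>
    ∃ y, (y - bd.1).val < r ∧ ((0 : Fin 3), x, y) ∈ R ∧ ((2 : Fin 3), x, x + y + bd.2) ∈ R with hB
  have hsub : (univ.filter fun s => Bad N h r s R) ⊆
      univ.biUnion (fun x => (A x) ×ˢ (B x)) := by
    intro s hs
    simp only [mem_filter, mem_univ, true_and] at hs
    obtain ⟨x, y, ⟨hx, hy⟩, h0, _, h2⟩ := hs
    simp only [mem_biUnion, mem_univ, true_and, mem_product, hA, hB, mem_filter]
    exact ⟨x, hx, y, hy, h0, h2⟩
  have hcard : ((univ.filter fun s => Bad N h r s R).card : ℝ) ≤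
      ∑ x : ZMod N, ((A x).card : ℝ) * (B x).card := by
    have h1 := (card_le_card hsub).trans card_biUnion_le
    have h2 : (∑ x : ZMod N, ((A x) ×ˢ (B x)).card : ℕ) =
        ∑ x : ZMod N, (A x).card * (B x).card := by
      refine sum_congr rfl fun x _ => card_product _ _
    rw [h2] at h1
    exact_mod_cast h1
  have hAc : ∀ x, ((A x).card : ℝ) ≤ h := fun x => by
    exact_mod_cast interval_card2 N h x
  have hB1 : ∀ x, ((B x).card : ℝ) ≤ (N : ℝ) ^ 2 := fun x => by
    have h1 : (B x).card ≤ Fintype.card (ZMod N × ZMod N) := card_le_univ _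
    rw [Fintype.card_prod, ZMod.card] at h1
    have h2 : ((B x).card : ℝ) ≤ ((N * N : ℕ) : ℝ) := by exact_mod_cast h1
    push_cast at h2
    nlinarith
  have hB2 : ∀ x, ((B x).card : ℝ) ≤ r * ((D0 x).card * (D2 x).card) := fun x => by
    have hs : B x ⊆ (D0 x ×ˢ D2 x).biUnion (fun yz =>
        (univ.filter fun β : ZMod N => (yz.1 - β).val < r).image
          (fun β => (β, yz.2 - x - yz.1))) := by
      intro bd hbd
      simp only [hB, mem_filter, mem_univ, true_and] at hbd
      obtain ⟨y, hy, h0, h2⟩ := hbd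
      simp only [mem_biUnion, mem_product, hD0, hD2, mem_filter, mem_univ, true_and, mem_image]
      refine ⟨(y, x + y + bd.2), ⟨h0, h2⟩, bd.1, hy, ?_⟩
      ext
      · rfl
      · show x + y + bd.2 - x - y = bd.2; ring
    have h1 : (B x).card ≤ ∑ yz ∈ D0 x ×ˢ D2 x, r := by
      refine ((card_le_card hs).trans card_biUnion_le).trans ?_
      refine sum_le_sum fun yz _ => ?_
      exact card_image_le.trans (interval_card2 N r yz.1)
    rw [sum_const, card_product, smul_eq_mul] at h1
    have h2 : ((B x).card : ℝ) ≤ (((D0 x).card * (D2 x).card * r : ℕ) : ℝ) := by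
      exact_mod_cast h1
    push_cast at h2
    linarith
  have hB3 : ∀ x, ((B x).card : ℝ) ≤
      N * √r * ((((D0 x).card : ℝ) + (D2 x).card) / 2) := fun x => by
    have hb := hB1 x
    have hb' := hB2 x
    set b : ℝ := ((B x).card : ℝ)
    set d0 : ℝ := ((D0 x).card : ℝ)
    set d2 : ℝ := ((D2 x).card : ℝ)
    have hb0 : (0 : ℝ) ≤ b := by positivity
    have h0 : (0 : ℝ) ≤ d0 := by positivity
    have h2 : (0 : ℝ) ≤ d2 := by positivity
    have hr : (0 : ℝ) ≤ (r : ℝ) := by positivity
    have hs : √(r : ℝ) ^ 2 = r := Real.sq_sqrt hr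
    have h3 : b ^ 2 ≤ (N * √r * ((d0 + d2) / 2)) ^ 2 := by
      have h4 : b ^ 2 ≤ (N : ℝ) ^ 2 * (r * (d0 * d2)) := by
        calc b ^ 2 = b * b := by ring
          _ ≤ (N : ℝ) ^ 2 * (r * (d0 * d2)) := mul_le_mul hb hb' hb0 (by positivity)
      have h5 : d0 * d2 ≤ ((d0 + d2) / 2) ^ 2 := by nlinarith [sq_nonneg (d0 - d2)]
      calc b ^ 2 ≤ (N : ℝ) ^ 2 * (r * (d0 * d2)) := h4
        _ ≤ (N : ℝ) ^ 2 * (r * ((d0 + d2) / 2) ^ 2) := by gcongr
        _ = (N * √r * ((d0 + d2) / 2)) ^ 2 := by
          rw [mul_pow, mul_pow, hs]; ring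
    exact le_of_sq_le_sq h3 (by positivity)
  have hfib : ∑ x : ZMod N, ((R.filter fun c => c.2.1 = x).card : ℝ) = R.card := by
    have := Finset.card_eq_sum_card_fiberwise (f := fun c : Fin 3 × ZMod N × ZMod N => c.2.1)
      (s := R) (t := univ) (fun _ _ => by simp)
    rw [this]; push_cast; rfl
  have hd : ∀ (a : Fin 3) (x : ZMod N),
      ((univ.filter fun y => (a, x, y) ∈ R).card : ℝ) ≤
        ((R.filter fun c => c.2.1 = x).card : ℝ) := fun a x => by
    have : (univ.filter fun y => (a, x, y) ∈ R).card ≤ (R.filter fun c => c.2.1 = x).card := by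
      refine Finset.card_le_card_of_injOn (fun y => (a, x, y)) ?_ ?_
      · intro y hy
        simp only [coe_filter, mem_univ, true_and, Set.mem_setOf_eq] at hy
        simp [hy]
      · intro y _ y' _ hyy
        simpa using hyy
    exact_mod_cast this
  calc ((univ.filter fun s => Bad N h r s R).card : ℝ)
      ≤ ∑ x : ZMod N, ((A x).card : ℝ) * (B x).card := hcard
    _ ≤ ∑ x : ZMod N, (h : ℝ) * (N * √r * ((R.filter fun c => c.2.1 = x).card : ℝ)) := by
        refine sum_le_sum fun x _ => ?_
        refine mul_le_mul (hAc x) ((hB3 x).trans ?_) (by positivity) (by positivity)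
        have h0 := hd 0 x
        have h2 := hd 2 x
        gcongr
        simp only [hD0, hD2]
        linarith
    _ = h * N * √r * R.card := by
        rw [← hfib, ← mul_sum, ← mul_sum]; ring

end ETFar
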