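import Pool.Agent.H29.ET.FARZ

open Finset

namespace ETFar

/-- The run of an algorithm depends only on the cells which are read. -/
theorem run_eq_of_cells {κ β : Type} [DecidableEq κ] (T : Tree κ β) (x x' : κ → β)
    (h : ∀ c ∈ T.cells x, x' c = x c) : T.run x' = T.run x := by
  induction T with
  | leaf b => rfl
  | read c f ih =>
    have hc : x' c = x c := h c (by simp [Tree.cells])
    simp only [Tree.run]
    rw [hc]
    apply ih
    intro c' hc'
    exact h c' (by simp only [Tree.cells, mem_insert]; exact Or.inr hc')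

theorem cells_card_le {κ β : Type} [DecidableEq κ] (T : Tree κ β) (x : κ → β) :
    (T.cells x).card ≤ T.reads x := by
  induction T with
  | leaf b => simp [Tree.cells, Tree.reads]
  | read c f ih =>
    simp only [Tree.cells, Tree.reads]
    exact (Finset.card_insert_le _ _).trans (Nat.add_le_add_right (ih (x c)) 1)

/-- First vertex of the edge `k` of the triangle of `p`. -/
def tA (N : ℕ) (k : Fin 3) (p : ZMod N × ZMod N) : Fin 3 × ZMod N :=
  if k = 1 then (1, p.2) else (0, p.1)

/-- Second vertex of the edge `k` of the triangle of `p`. -/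
def tB (N : ℕ) (k : Fin 3) (p : ZMod N × ZMod N) : Fin 3 × ZMod N :=
  if k = 0 then (1, p.2) else (2, p.1 + p.2)

theorem tAB_inj (N : ℕ) (k k' : Fin 3) (p p' : ZMod N × ZMod N)
    (h : (tA N k p = tA N k' p' ∧ tB N k p = tB N k' p') ∨
      (tA N k p = tB N k' p' ∧ tB N k p = tA N k' p')) : k = k' ∧ p = p' := by
  obtain ⟨x, y⟩ := p
  obtain ⟨x', y'⟩ := p'
  fin_cases k <;> fin_cases k' <;>
    simp only [tA, tB, Fin.isValue, Fin.zero_eta, Fin.mk_one, Fin.reduceFinMk, Prod.mk.injEq,
      if_true, if_false, zero_ne_one, one_ne_zero, Fin.reduceEq, true_and, false_and, and_true,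
      and_false, or_false, false_or] at h ⊢
  · exact h
  · obtain ⟨h1, h2⟩ := h
    refine ⟨?_, h1⟩
    rw [h1] at h2
    exact add_right_cancel h2
  · obtain ⟨h1, h2⟩ := h
    refine ⟨h1, ?_⟩
    rw [h1] at h2
    exact add_left_cancel h2

theorem tA_ne_tB (N : ℕ) (k : Fin 3) (p : ZMod N × ZMod N) : tA N k p ≠ tB N k p := by
  intro h
  fin_cases k <;> simp [tA, tB] at h

/-- The complete graph with all weights `1`. -/
def ones (n : ℕ) : Inst n := fun c => if c.1 = c.2 then (false, 0) else (true, 1)

theorem det_lower (n m : ℕ) (T : Tree (Fin n × Fin n) (Bool × ℤ))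
    (hyes : ∀ x, Valid x → Far m x → T.run x = true)
    (hno : ∀ x, Valid x → (¬ ∃ i j k, Zero x i j k) → T.run x = false) :
    ∃ x, Valid x ∧ (¬ ∃ i j k, Zero x i j k) ∧ 3 * ((n / 3) ^ 2 - m) ≤ T.reads x := by
  classical
  rcases Nat.eq_zero_or_pos (n / 3) with h0 | hN
  · refine ⟨fun _ => (false, 0), ⟨fun _ _ => rfl, fun _ => rfl, fun i j => ?_⟩, ?_, ?_⟩
    · simp
    · rintro ⟨i, j, k, hz⟩
      exact absurd hz.2.2.2.1 (by simp)
    · rw [h0]; simp
  · have h : 3 * (n / 3) ≤ n := Nat.mul_div_le n 3
    have hn3 : 3 ≤ n := by omega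
    obtain ⟨N, hNdef⟩ : ∃ N, N = n / 3 := ⟨_, rfl⟩
    rw [← hNdef] at hN h ⊢
    haveI : NeZero N := ⟨hN.ne'⟩
    have hpow : (3 : ℤ) ≤ (n : ℤ) ^ 300 := by
      have h1 : (1 : ℤ) ≤ (n : ℤ) := by exact_mod_cast (show 1 ≤ n by omega)
      have h2 : (n : ℤ) ^ 1 ≤ (n : ℤ) ^ 300 := pow_le_pow_right₀ h1 (by norm_num)
      have h3 : (3 : ℤ) ≤ (n : ℤ) := by exact_mod_cast hn3
      rw [pow_one] at h2
      exact h3.trans h2
    have hV0 : Valid (ones n) := by
      refine ⟨fun i j => ?_, fun i => ?_, fun i j => ?_⟩
      · simp only [ones]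
        by_cases hij : i = j
        · subst hij; rfl
        · rw [if_neg hij, if_neg (Ne.symm hij)]
      · simp [ones]
      · simp only [ones]
        split_ifs
        · simp
        · simp only [abs_one]; linarith
    have hZ0 : ¬ ∃ i j k, Zero (ones n) i j k := by
      rintro ⟨i, j, k, hij, hjk, hik, -, -, -, hs⟩
      simp only [ones, if_neg hij, if_neg hjk, if_neg hik] at hs
      norm_num at hs
    refine ⟨ones n, hV0, hZ0, ?_⟩
    by_contra hlt
    push Not at hlt
    set R := T.cells (ones n) with hR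
    have hRc : R.card < 3 * (N ^ 2 - m) := (cells_card_le T (ones n)).trans_lt hlt
    -- the edges
    let eg : (ZMod N × ZMod N) → Fin 3 → Fin n × Fin n := fun p k =>
      (vtx N n h (tA N k p), vtx N n h (tB N k p))
    have inj := vtx_injective N n h
    have egne : ∀ p k, (eg p k).1 ≠ (eg p k).2 := by
      intro p k hh
      exact tA_ne_tB N k p (inj hh)
    have egs : ∀ p k p' k', s((eg p k).1, (eg p k).2) = s((eg p' k').1, (eg p' k').2) →
        k = k' ∧ p = p' := by
      intro p k p' k' hh
      apply tAB_inj N k k' p p'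
      rw [Sym2.eq_iff] at hh
      rcases hh with ⟨e1, e2⟩ | ⟨e1, e2⟩
      · exact Or.inl ⟨inj e1, inj e2⟩
      · exact Or.inr ⟨inj e1, inj e2⟩
    let W : Finset (ZMod N × ZMod N) := univ.filter fun p =>
      ∃ k, eg p k ∉ R ∧ (eg p k).swap ∉ R
    have hWc : 3 * (Wᶜ).card ≤ R.card := by
      have h1 : (Wᶜ ×ˢ (univ : Finset (Fin 3))).card ≤ R.card := by
        refine Finset.card_le_card_of_injOn
          (fun q => if eg q.1 q.2 ∈ R then eg q.1 q.2 else (eg q.1 q.2).swap) ?_ ?_
        · intro q hq
          simp only [coe_product, Set.mem_prod, mem_coe, mem_compl, W, mem_filter, mem_univ,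
            true_and, and_true, not_exists, not_and, not_not] at hq
          show (if eg q.1 q.2 ∈ R then eg q.1 q.2 else (eg q.1 q.2).swap) ∈ (R : Set _)
          by_cases hm : eg q.1 q.2 ∈ R
          · rw [if_pos hm]; exact hm
          · rw [if_neg hm]; exact hq q.2 hm
        · intro q _ q' _ hqq
          have key : ∀ q : (ZMod N × ZMod N) × Fin 3,
              s((if eg q.1 q.2 ∈ R then eg q.1 q.2 else (eg q.1 q.2).swap).1,
                (if eg q.1 q.2 ∈ R then eg q.1 q.2 else (eg q.1 q.2).swap).2) =
              s((eg q.1 q.2).1, (eg q.1 q.2).2) := by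
            intro q
            split_ifs
            · rfl
            · simp only [Prod.fst_swap, Prod.snd_swap]
              exact Sym2.eq_swap
          have h2 : s((eg q.1 q.2).1, (eg q.1 q.2).2) = s((eg q'.1 q'.2).1, (eg q'.1 q'.2).2) := by
            rw [← key q, ← key q']
            have hqq' : (if eg q.1 q.2 ∈ R then eg q.1 q.2 else (eg q.1 q.2).swap) =
              (if eg q'.1 q'.2 ∈ R then eg q'.1 q'.2 else (eg q'.1 q'.2).swap) := hqq
            rw [hqq']
          obtain ⟨e1, e2⟩ := egs _ _ _ _ h2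
          exact Prod.ext e2 e1
      rw [card_product, Finset.card_univ, Fintype.card_fin] at h1
      omega
    have hWm : m ≤ W.card := by
      have h2 : W.card + (Wᶜ).card = N ^ 2 := by
        rw [Finset.card_add_card_compl, Fintype.card_prod, ZMod.card]
        ring
      omega
    have hW : ∀ p ∈ W, ∃ k, eg p k ∉ R ∧ (eg p k).swap ∉ R := by
      intro p hp
      simpa [W] using hp
    choose! kk hk1 hk2 using hW
    let X : Inst n := fun c =>
      if ∃ p ∈ W, s(c.1, c.2) = s((eg p (kk p)).1, (eg p (kk p)).2) then (true, -2)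
      else ones n c
    have hXV : Valid X := by
      refine ⟨fun i j => ?_, fun i => ?_, fun i j => ?_⟩
      · have hsw : s(i, j) = s(j, i) := Sym2.eq_swap
        simp only [X]
        rw [hsw, hV0.1 i j]
      · have hno' : ¬ ∃ p ∈ W, s(i, i) = s((eg p (kk p)).1, (eg p (kk p)).2) := by
          rintro ⟨p, _, hp⟩
          rw [Sym2.eq_iff] at hp
          rcases hp with ⟨e1, e2⟩ | ⟨e1, e2⟩
          · exact egne p (kk p) (e1.symm.trans e2)
          · exact egne p (kk p) (e2.symm.trans e1)
        simp only [X]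
        rw [if_neg hno']
        exact hV0.2.1 i
      · simp only [X]
        split_ifs
        · simp only [abs_neg]
          rw [abs_of_pos (by norm_num : (0 : ℤ) < 2)]
          linarith
        · exact hV0.2.2 i j
    have hXR : ∀ c ∈ R, X c = ones n c := by
      intro c hc
      have hno' : ¬ ∃ p ∈ W, s(c.1, c.2) = s((eg p (kk p)).1, (eg p (kk p)).2) := by
        rintro ⟨p, hpW, hp⟩
        rw [Sym2.eq_iff] at hp
        rcases hp with ⟨e1, e2⟩ | ⟨e1, e2⟩
        · have : c = eg p (kk p) := Prod.ext e1 e2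
          exact hk1 p hpW (this ▸ hc)
        · have : c = (eg p (kk p)).swap := Prod.ext e1 e2
          exact hk2 p hpW (this ▸ hc)
      simp only [X]
      rw [if_neg hno']
    have hrun : T.run X = T.run (ones n) := run_eq_of_cells T (ones n) X hXR
    -- values on the triangles
    have hval : ∀ p ∈ W, ∀ k, X (eg p k) = if k = kk p then (true, -2) else (true, 1) := by
      intro p hp k
      by_cases hk : k = kk p
      · rw [if_pos hk]
        simp only [X]
        rw [if_pos ⟨p, hp, by rw [hk]⟩]
      · rw [if_neg hk]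
        have hno' : ¬ ∃ p' ∈ W, s((eg p k).1, (eg p k).2) =
            s((eg p' (kk p')).1, (eg p' (kk p')).2) := by
          rintro ⟨p', _, hp'⟩
          obtain ⟨e1, e2⟩ := egs _ _ _ _ hp'
          apply hk
          rw [e1, e2]
        simp only [X]
        rw [if_neg hno']
        simp only [ones]
        rw [if_neg (egne p k)]
    have hXF : Far m X := by
      apply far_of_zero N n m h X 0 W hWm
      intro p hp
      have v0 := hval p hp 0
      have v1 := hval p hp 1
      have v2 := hval p hp 2
      have d0 := egne p 0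
      have d1 := egne p 1
      have d2 := egne p 2
      simp only [eg, tA, tB, Fin.isValue, zero_ne_one, if_false, if_true, one_ne_zero,
        Fin.reduceEq] at v0 v1 v2 d0 d1 d2
      rw [add_zero]
      refine ⟨d0, d1, d2, ?_, ?_, ?_, ?_⟩
      · rw [v0]; split_ifs <;> rfl
      · rw [v1]; split_ifs <;> rfl
      · rw [v2]; split_ifs <;> rfl
      · rw [v0, v1, v2]
        have : kk p = 0 ∨ kk p = 1 ∨ kk p = 2 := by
          generalize kk p = k
          fin_cases k <;> simp
        rcases this with hk | hk | hk <;> rw [hk] <;> simp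
    have c1 := hyes X hXV hXF
    have c2 := hno (ones n) hV0 hZ0
    rw [hrun, c2] at c1
    exact absurd c1 (by simp)

end ETFar
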