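import Mathlib

/-! # Exact Triangle with many zero triangles: definitions -/

open Finset

namespace ETFar

/-- An input with `n` vertices: cell `(i, j)` holds the edge flag and the weight. -/
abbrev Inst (n : ℕ) := Fin n × Fin n → Bool × ℤ

/-- The valid inputs of the problem. -/
def Valid {n : ℕ} (x : Inst n) : Prop :=
  (∀ i j, x (i, j) = x (j, i)) ∧ (∀ i, (x (i, i)).1 = false) ∧
    ∀ i j, |(x (i, j)).2| ≤ (n : ℤ) ^ 300

/-- `i, j, k` are the vertices of a triangle of weight zero. -/
def Zero {n : ℕ} (x : Inst n) (i j k : Fin n) : Prop :=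
  i ≠ j ∧ j ≠ k ∧ i ≠ k ∧ (x (i, j)).1 = true ∧ (x (j, k)).1 = true ∧ (x (i, k)).1 = true ∧
    (x (i, j)).2 + (x (j, k)).2 + (x (i, k)).2 = 0

/-- At least `m` edges have to be removed to destroy all triangles of weight zero. -/
def Far {n : ℕ} (m : ℕ) (x : Inst n) : Prop :=
  ∀ D : Finset (Sym2 (Fin n)), D.card < m →
    ∃ i j k, Zero x i j k ∧ s(i, j) ∉ D ∧ s(j, k) ∉ D ∧ s(i, k) ∉ D

/-- A deterministic algorithm which reads the input cell by cell; the next cell depends on the
contents of the cells read before; all computations are free. -/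
inductive Tree (κ β : Type) : Type
  | leaf (b : Bool) : Tree κ β
  | read (c : κ) (f : β → Tree κ β) : Tree κ β

/-- The answer. -/
def Tree.run {κ β : Type} : Tree κ β → (κ → β) → Bool
  | .leaf b, _ => b
  | .read c f, x => (f (x c)).run x

/-- The number of reads. -/
def Tree.reads {κ β : Type} : Tree κ β → (κ → β) → ℕ
  | .leaf _, _ => 0
  | .read c f, x => (f (x c)).reads x + 1

/-- The set of the cells which are read. -/
def Tree.cells {κ β : Type} [DecidableEq κ] : Tree κ β → (κ → β) → Finset κ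
  | .leaf _, _ => ∅
  | .read c f, x => insert c ((f (x c)).cells x)

/-- The pair `(x, y)` is in the planted rectangle with sides `h`, `r`. -/
def Planted (N h r : ℕ) (s : ZMod N × ZMod N × ZMod N) (x y : ZMod N) : Prop :=
  (x - s.1).val < h ∧ (y - s.2.1).val < r

/-- The set `R` of cells contains a planted triangle. -/
def Bad (N h r : ℕ) (s : ZMod N × ZMod N × ZMod N)
    (R : Finset (Fin 3 × ZMod N × ZMod N)) : Prop :=
  ∃ x y, Planted N h r s x y ∧ (0, x, y) ∈ R ∧ (1, y, x + y + s.2.2) ∈ R ∧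
    (2, x, x + y + s.2.2) ∈ R

open Classical in
/-- Planting: the third cell of every planted triangle is overwritten. -/
noncomputable def plantFun (N h r : ℕ) {G : Type} [AddCommGroup G] (s : ZMod N × ZMod N × ZMod N)
    (u : Fin 3 × ZMod N × ZMod N → G) : Fin 3 × ZMod N × ZMod N → G := fun c =>
  if c.1 = 2 ∧ Planted N h r s c.2.1 (c.2.2 - c.2.1 - s.2.2) then
    -(u (0, c.2.1, c.2.2 - c.2.1 - s.2.2) + u (1, c.2.2 - c.2.1 - s.2.2, c.2.2))
  else u c

/-- `plantFun` as a homomorphism. -/
noncomputable def plant (N h r : ℕ) {G : Type} [AddCommGroup G] (s : ZMod N × ZMod N × ZMod N) :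
    (Fin 3 × ZMod N × ZMod N → G) →+ (Fin 3 × ZMod N × ZMod N → G) where
  toFun := plantFun N h r s
  map_zero' := by
    funext c; unfold plantFun; split_ifs <;> simp
  map_add' := by
    intro u v; funext c; unfold plantFun; simp only [Pi.add_apply]; split_ifs
    · abel
    · rfl

/-- The weight which belongs to a group element. -/
def wval (N L : ℕ) (c : Fin 3 × ZMod N × ZMod N) (g : ZMod (2 * L)) : ℤ :=
  if c.1 = 2 then -((L : ℤ) + ((-g - (L : ZMod (2 * L))).val : ℤ)) else (g.val : ℤ)

/-- The vertex `(a, x)` of the tripartite graph. -/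
def vtx (N n : ℕ) (h : 3 * N ≤ n) [NeZero N] (v : Fin 3 × ZMod N) : Fin n :=
  ⟨v.1.val * N + v.2.val, by
    have h1 := v.1.isLt
    have h2 := ZMod.val_lt v.2
    nlinarith⟩

theorem vtx_injective (N n : ℕ) (h : 3 * N ≤ n) [NeZero N] :
    Function.Injective (vtx N n h) := by
  rintro ⟨a, x⟩ ⟨b, y⟩ hab
  have h1 : a.val * N + x.val = b.val * N + y.val := by
    simpa [vtx] using hab
  have hx := ZMod.val_lt x
  have hy := ZMod.val_lt y
  have hN : 0 < N := NeZero.pos N
  have h2 : a.val = b.val := by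
    have e1 : (a.val * N + x.val) / N = a.val := by
      rw [mul_comm, Nat.mul_add_div hN, Nat.div_eq_of_lt hx, add_zero]
    have e2 : (b.val * N + y.val) / N = b.val := by
      rw [mul_comm, Nat.mul_add_div hN, Nat.div_eq_of_lt hy, add_zero]
    rw [← e1, ← e2, h1]
  have h3 : x.val = y.val := by rw [h2] at h1; omega
  have : x = y := ZMod.val_injective N h3
  simp [Prod.ext_iff, Fin.ext_iff, h2, this]

/-- The vertex of the tripartite graph with a given number. -/
noncomputable def unvtx (N n : ℕ) (h : 3 * N ≤ n) [NeZero N] :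
    Fin n → Option (Fin 3 × ZMod N) := Function.partialInv (vtx N n h)

theorem unvtx_eq (N n : ℕ) (h : 3 * N ≤ n) [NeZero N] (i : Fin n) (v : Fin 3 × ZMod N) :
    unvtx N n h i = some v ↔ vtx N n h v = i :=
  (vtx_injective N n h).isPartialInv _ _

/-- The cell which belongs to two vertices of the tripartite graph. -/
def cellOf (N : ℕ) (v w : Fin 3 × ZMod N) : Option (Fin 3 × ZMod N × ZMod N) :=
  if v.1 = 0 ∧ w.1 = 1 then some (0, v.2, w.2)
  else if v.1 = 1 ∧ w.1 = 0 then some (0, w.2, v.2)
  else if v.1 = 1 ∧ w.1 = 2 then some (1, v.2, w.2)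
  else if v.1 = 2 ∧ w.1 = 1 then some (1, w.2, v.2)
  else if v.1 = 0 ∧ w.1 = 2 then some (2, v.2, w.2)
  else if v.1 = 2 ∧ w.1 = 0 then some (2, w.2, v.2)
  else none

/-- The location of a cell of the matrix. -/
noncomputable def loc (N n : ℕ) (h : 3 * N ≤ n) [NeZero N] (ij : Fin n × Fin n) :
    Option (Fin 3 × ZMod N × ZMod N) :=
  (unvtx N n h ij.1).bind fun v => (unvtx N n h ij.2).bind fun w => cellOf N v w

/-- The instance. -/
noncomputable def inst (N n L : ℕ) (h : 3 * N ≤ n) [NeZero N]
    (u : Fin 3 × ZMod N × ZMod N → ZMod (2 * L)) : Inst n := fun ij =>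
  match loc N n h ij with
  | none => (false, 0)
  | some c => (true, wval N L c (u c))

/-- The bound. -/
noncomputable def bound (n m : ℝ) : ℝ :=
  max (n ^ 2 / m ^ (2 / 3 : ℝ)) (min (n ^ 2 / √m) (n ^ 2 * √n / m))

end ETFar
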