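import Pool.Agent.H29.ET.Defs

open Finset

namespace ETFar

/-- Part FARZ: many zero triangles `vtx (0,x), vtx (1,y), vtx (2,x+y+d)` are pairwise
edge-disjoint, so at least as many edges have to be removed. -/
theorem far_of_zero (N n m : ℕ) (h : 3 * N ≤ n) [NeZero N] (X : Inst n) (d : ZMod N)
    (Z : Finset (ZMod N × ZMod N)) (hZ : m ≤ Z.card)
    (hz : ∀ p ∈ Z, Zero X (vtx N n h (0, p.1)) (vtx N n h (1, p.2))
      (vtx N n h (2, p.1 + p.2 + d))) : Far m X := by
  classical
  intro D hD
  by_contra hcon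
  push Not at hcon
  -- the three edges of the triangle of a pair
  let E : ZMod N × ZMod N → Finset (Sym2 (Fin n)) := fun p =>
    {s(vtx N n h (0, p.1), vtx N n h (1, p.2)),
      s(vtx N n h (1, p.2), vtx N n h (2, p.1 + p.2 + d)),
      s(vtx N n h (0, p.1), vtx N n h (2, p.1 + p.2 + d))}
  have hex : ∀ p ∈ Z, ∃ e ∈ D, e ∈ E p := by
    intro p hp
    by_contra hno
    push Not at hno
    have h1 : s(vtx N n h (0, p.1), vtx N n h (1, p.2)) ∉ D := fun hm => hno _ hm (by simp [E])
    have h2 : s(vtx N n h (1, p.2), vtx N n h (2, p.1 + p.2 + d)) ∉ D :=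
      fun hm => hno _ hm (by simp [E])
    have h3 : s(vtx N n h (0, p.1), vtx N n h (2, p.1 + p.2 + d)) ∉ D :=
      fun hm => hno _ hm (by simp [E])
    exact h3 (hcon _ _ _ (hz p hp) h1 h2)
  have hne : Nonempty (Sym2 (Fin n)) := ⟨s(vtx N n h (0, 0), vtx N n h (0, 0))⟩
  choose! g hgD hgE using hex
  have hinj : Set.InjOn g (Z : Set (ZMod N × ZMod N)) := by
    intro p hp q hq hpq
    have h1 := hgE p hp
    have h2 := hgE q hq
    rw [← hpq] at h2
    simp only [E, Finset.mem_insert, Finset.mem_singleton] at h1 h2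
    have inj := vtx_injective N n h
    have key : ∀ a b a' b' : Fin 3 × ZMod N, s(vtx N n h a, vtx N n h b) =
        s(vtx N n h a', vtx N n h b') → (a = a' ∧ b = b') ∨ (a = b' ∧ b = a') := by
      intro a b a' b' hh
      rw [Sym2.eq_iff] at hh
      rcases hh with ⟨e1, e2⟩ | ⟨e1, e2⟩
      · exact Or.inl ⟨inj e1, inj e2⟩
      · exact Or.inr ⟨inj e1, inj e2⟩
    have h01 : (0 : Fin 3) ≠ 1 := by decide
    have h02 : (0 : Fin 3) ≠ 2 := by decide
    have h12 : (1 : Fin 3) ≠ 2 := by decide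
    rcases h1 with h1 | h1 | h1 <;> rcases h2 with h2 | h2 | h2 <;>
      (have hk := key _ _ _ _ (h1.symm.trans h2)
       simp only [Prod.mk.injEq] at hk
       rcases hk with ⟨⟨e1, e2⟩, e3, e4⟩ | ⟨⟨e1, e2⟩, e3, e4⟩) <;>
      first
      | exact absurd e1 (by decide)
      | exact absurd e3 (by decide)
      | (apply Prod.ext
         · first | exact e2 | exact e4 | (rw [e2] at e4; simpa using e4) | skip
         · first | exact e4 | exact e2 | (rw [e2] at e4; simpa using e4))
  have := Finset.card_le_card_of_injOn g (fun p hp => hgD p hp) hinj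
  omega

end ETFar
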