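import Pool.Agent.H29.ET.Defs

open Finset

namespace ETFar

private theorem quart_arith (L a b a' b' : ℕ) (ha : a < 2 * L) (hb : b < 2 * L)
    (ha' : a' < 2 * L) (hb' : b' < 2 * L) (h : ¬ (L ≤ a + b ∧ a + b < 3 * L))
    (h' : ¬ (L ≤ a' + b' ∧ a' + b' < 3 * L)) (e1 : a % L = a' % L) (e2 : b % L = b' % L) :
    a = a' ∧ b = b' := by
  have hL : 0 < L := by omega
  have key : ∀ c d : ℕ, c < 2 * L → d < 2 * L → ¬ (L ≤ c + d ∧ c + d < 3 * L) →
      (c + d < L ∧ c % L = c ∧ d % L = d) ∨
      (3 * L ≤ c + d ∧ c % L + L = c ∧ d % L + L = d) := by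
    intro c d hc hd hcd
    rcases Nat.lt_or_ge (c + d) L with h1 | h1
    · left
      exact ⟨h1, Nat.mod_eq_of_lt (by omega), Nat.mod_eq_of_lt (by omega)⟩
    · right
      have h2 : 3 * L ≤ c + d := by
        by_contra h3; exact hcd ⟨h1, by omega⟩
      have hcL : L ≤ c := by omega
      have hdL : L ≤ d := by omega
      refine ⟨h2, ?_, ?_⟩
      · rw [Nat.mod_eq_sub_mod hcL, Nat.mod_eq_of_lt (by omega)]; omega
      · rw [Nat.mod_eq_sub_mod hdL, Nat.mod_eq_of_lt (by omega)]; omega
  rcases key a b ha hb h with ⟨h1, h2, h3⟩ | ⟨h1, h2, h3⟩ <;>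
  rcases key a' b' ha' hb' h' with ⟨h4, h5, h6⟩ | ⟨h4, h5, h6⟩ <;> omega

private theorem quart_cast (L : ℕ) [NeZero L] (a a' : ZMod (2 * L)) (i i' : Bool)
    (h : a + (if i then (L : ZMod (2 * L)) else 0) = a' + (if i' then (L : ZMod (2 * L)) else 0)) :
    a.val % L = a'.val % L := by
  have hd : L ∣ 2 * L := Dvd.intro_left 2 rfl
  have hL : ZMod.castHom hd (ZMod L) (L : ZMod (2 * L)) = 0 := by simp
  have h1 : ZMod.castHom hd (ZMod L) a = ZMod.castHom hd (ZMod L) a' := by
    have h2 := congrArg (ZMod.castHom hd (ZMod L)) h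
    rw [map_add, map_add] at h2
    have h3 : ∀ j : Bool, ZMod.castHom hd (ZMod L) (if j then (L : ZMod (2 * L)) else 0) = 0 := by
      intro j; cases j
      · simp
      · simpa using hL
    rw [h3, h3, add_zero, add_zero] at h2
    exact h2
  have h4 : ∀ c : ZMod (2 * L), (ZMod.castHom hd (ZMod L) c) = ((c.val : ℕ) : ZMod L) := by
    intro c
    conv_lhs => rw [← ZMod.natCast_zmod_val c]
    rw [map_natCast]
  rw [h4, h4, ZMod.natCast_eq_natCast_iff'] at h1
  exact h1

open Classical in
/-- for fixed `x y z` at most a quarter of the `u` violate `L ≤ a + b < 3 L`. -/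
theorem quart (N L : ℕ) [NeZero N] [NeZero L] (x y z : ZMod N) :
    ((univ.filter fun u : Fin 3 × ZMod N × ZMod N → ZMod (2 * L) =>
      ¬ (L ≤ (u (0, x, y)).val + (u (1, y, z)).val ∧
        (u (0, x, y)).val + (u (1, y, z)).val < 3 * L)).card : ℝ) ≤
    (Fintype.card (Fin 3 × ZMod N × ZMod N → ZMod (2 * L)) : ℝ) / 4 := by
  set c1 : Fin 3 × ZMod N × ZMod N := (0, x, y) with hc1
  set c2 : Fin 3 × ZMod N × ZMod N := (1, y, z) with hc2
  have hne : c2 ≠ c1 := by
    intro h; simp [hc1, hc2] at h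
  set B := univ.filter fun u : Fin 3 × ZMod N × ZMod N → ZMod (2 * L) =>
      ¬ (L ≤ (u c1).val + (u c2).val ∧ (u c1).val + (u c2).val < 3 * L) with hB
  set F : (Fin 3 × ZMod N × ZMod N → ZMod (2 * L)) × (Bool × Bool) →
      (Fin 3 × ZMod N × ZMod N → ZMod (2 * L)) := fun w =>
    Function.update (Function.update w.1 c1 (w.1 c1 + (if w.2.1 then (L : ZMod (2 * L)) else 0)))
      c2 (w.1 c2 + (if w.2.2 then (L : ZMod (2 * L)) else 0)) with hF
  have hLne : (L : ZMod (2 * L)) ≠ 0 := by
    intro h0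
    rw [ZMod.natCast_eq_zero_iff] at h0
    have := Nat.le_of_dvd (NeZero.pos L) h0
    have := NeZero.pos L
    omega
  have hbool : ∀ (a : ZMod (2 * L)) (i i' : Bool),
      a + (if i then (L : ZMod (2 * L)) else 0) = a + (if i' then (L : ZMod (2 * L)) else 0) →
      i = i' := by
    intro a i i' h
    have h' := add_left_cancel h
    cases i <;> cases i' <;> simp at h' ⊢
    · exact hLne h'.symm
    · exact hLne h'
  have hinj : Set.InjOn F (B ×ˢ (univ : Finset (Bool × Bool)) : Finset _) := by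
    rintro ⟨u, i, j⟩ hu ⟨u', i', j'⟩ hu' he
    simp only [coe_product, Set.mem_prod, mem_coe, hB, mem_filter, mem_univ, true_and] at hu hu'
    have e1 : u c1 + (if i then (L : ZMod (2 * L)) else 0)
        = u' c1 + (if i' then (L : ZMod (2 * L)) else 0) := by
      have := congrFun he c1
      simpa [hF, Function.update_of_ne hne.symm] using this
    have e2 : u c2 + (if j then (L : ZMod (2 * L)) else 0)
        = u' c2 + (if j' then (L : ZMod (2 * L)) else 0) := by
      have := congrFun he c2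
      simpa [hF] using this
    have hv := quart_arith L _ _ _ _ (ZMod.val_lt (u c1)) (ZMod.val_lt (u c2))
      (ZMod.val_lt (u' c1)) (ZMod.val_lt (u' c2)) hu.1 hu'.1 (quart_cast L _ _ i i' e1)
      (quart_cast L _ _ j j' e2)
    have hu1 : u c1 = u' c1 := ZMod.val_injective _ hv.1
    have hu2 : u c2 = u' c2 := ZMod.val_injective _ hv.2
    have hi : i = i' := by rw [hu1] at e1; exact hbool _ _ _ e1
    have hj : j = j' := by rw [hu2] at e2; exact hbool _ _ _ e2
    have huu : u = u' := by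
      funext c
      by_cases h1 : c = c1
      · rw [h1, hu1]
      · by_cases h2 : c = c2
        · rw [h2, hu2]
        · have := congrFun he c
          simpa [hF, Function.update_of_ne h1, Function.update_of_ne h2] using this
    rw [huu, hi, hj]
  have hcard : (B ×ˢ (univ : Finset (Bool × Bool))).card ≤
      (univ : Finset (Fin 3 × ZMod N × ZMod N → ZMod (2 * L))).card :=
    Finset.card_le_card_of_injOn F (fun _ _ => mem_univ _) hinj
  rw [card_product, card_univ, card_univ] at hcard
  have h4 : Fintype.card (Bool × Bool) = 4 := by simp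
  rw [h4] at hcard
  have h5 : ((B.card * 4 : ℕ) : ℝ) ≤
      (Fintype.card (Fin 3 × ZMod N × ZMod N → ZMod (2 * L)) : ℝ) := by exact_mod_cast hcard
  push_cast at h5
  linarith

end ETFar
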