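import Pool.Agent.H29.ET.FARZ
import Pool.Agent.H29.ET.QUART

open Finset

namespace ETFar

private theorem planted_card (N H r : ℕ) [NeZero N] (hHN : H ≤ N) (hrN : r ≤ N)
    (s : ZMod N × ZMod N × ZMod N) (P : Finset (ZMod N × ZMod N))
    (hP : ∀ p, p ∈ P ↔ Planted N H r s p.1 p.2) : H * r ≤ P.card := by
  have hval : ∀ a < N, ((a : ℕ) : ZMod N).val = a := fun a ha => ZMod.val_natCast_of_lt ha
  have h1 : (range H ×ˢ range r).card ≤ P.card := by
    refine Finset.card_le_card_of_injOn
      (fun ab : ℕ × ℕ => (s.1 + (ab.1 : ZMod N), s.2.1 + (ab.2 : ZMod N))) ?_ ?_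
    · intro ab hab
      simp only [coe_product, Set.mem_prod, mem_coe, mem_range] at hab
      rw [mem_coe, hP]
      refine ⟨?_, ?_⟩
      · show (s.1 + (ab.1 : ZMod N) - s.1).val < H
        rw [add_sub_cancel_left, hval _ (lt_of_lt_of_le hab.1 hHN)]
        exact hab.1
      · show (s.2.1 + (ab.2 : ZMod N) - s.2.1).val < r
        rw [add_sub_cancel_left, hval _ (lt_of_lt_of_le hab.2 hrN)]
        exact hab.2
    · intro ab hab cd hcd he
      simp only [coe_product, Set.mem_prod, mem_coe, mem_range] at hab hcd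
      simp only [Prod.mk.injEq] at he
      have e1 := add_left_cancel he.1
      have e2 := add_left_cancel he.2
      have f1 := congrArg ZMod.val e1
      have f2 := congrArg ZMod.val e2
      rw [hval _ (lt_of_lt_of_le hab.1 hHN), hval _ (lt_of_lt_of_le hcd.1 hHN)] at f1
      rw [hval _ (lt_of_lt_of_le hab.2 hrN), hval _ (lt_of_lt_of_le hcd.2 hrN)] at f2
      exact Prod.ext f1 f2
  simpa [card_product] using h1

open Classical in
theorem many_far_of (inst_zero_h : ∀ (N n L : ℕ) (h : 3 * N ≤ n) [NeZero N] [NeZero L]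
    (u : Fin 3 × ZMod N × ZMod N → ZMod (2 * L)) (x y z : ZMod N),
    u (0, x, y) + u (1, y, z) + u (2, x, z) = 0 →
    L ≤ (u (0, x, y)).val + (u (1, y, z)).val →
    (u (0, x, y)).val + (u (1, y, z)).val < 3 * L →
    Zero (inst N n L h u) (vtx N n h (0, x)) (vtx N n h (1, y)) (vtx N n h (2, z)))
    (N n L H r m : ℕ) (h : 3 * N ≤ n) [NeZero N] [NeZero L]
    (hH1 : 1 ≤ H) (hr1 : 1 ≤ r) (hHN : H ≤ N) (hrN : r ≤ N) (hm : 4 * m ≤ H * r)
    (s : ZMod N × ZMod N × ZMod N) :
    2 / 3 * (Fintype.card (Fin 3 × ZMod N × ZMod N → ZMod (2 * L)) : ℝ) ≤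
    ((univ.filter fun u : Fin 3 × ZMod N × ZMod N → ZMod (2 * L) =>
      Far m (inst N n L h (plant N H r s u))).card : ℝ) := by
  set P : Finset (ZMod N × ZMod N) := univ.filter fun p => Planted N H r s p.1 p.2 with hPdef
  have hPc : H * r ≤ P.card := planted_card N H r hHN hrN s P (by simp [hPdef])
  have hPpos : (0 : ℝ) < P.card := by
    have h1 : 1 ≤ H * r := Nat.mul_le_mul hH1 hr1
    have h2 : 0 < P.card := by omega
    exact_mod_cast h2
  let good : (Fin 3 × ZMod N × ZMod N → ZMod (2 * L)) → ZMod N × ZMod N → Prop := fun u p =>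
    L ≤ (u (0, p.1, p.2)).val + (u (1, p.2, p.1 + p.2 + s.2.2)).val ∧
      (u (0, p.1, p.2)).val + (u (1, p.2, p.1 + p.2 + s.2.2)).val < 3 * L
  have hfar : ∀ u, ¬ Far m (inst N n L h (plant N H r s u)) →
      (3 / 4 : ℝ) * P.card ≤ ((P.filter fun p => ¬ good u p).card : ℝ) := by
    intro u hu
    have hlt : (P.filter fun p => good u p).card < m := by
      by_contra hcon
      push Not at hcon
      refine hu (far_of_zero N n m h _ s.2.2 _ hcon ?_)
      intro p hp
      simp only [hPdef, mem_filter, mem_univ, true_and] at hp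
      obtain ⟨hpl, hg1, hg2⟩ := hp
      have e0 : plant N H r s u (0, p.1, p.2) = u (0, p.1, p.2) := by
        change plantFun N H r s u (0, p.1, p.2) = u (0, p.1, p.2)
        simp [plantFun]
      have e1 : plant N H r s u (1, p.2, p.1 + p.2 + s.2.2) =
          u (1, p.2, p.1 + p.2 + s.2.2) := by
        change plantFun N H r s u (1, p.2, p.1 + p.2 + s.2.2) =
          u (1, p.2, p.1 + p.2 + s.2.2)
        simp [plantFun]
      have ez : p.1 + p.2 + s.2.2 - p.1 - s.2.2 = p.2 := by ring
      have e2 : plant N H r s u (2, p.1, p.1 + p.2 + s.2.2) =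
          -(u (0, p.1, p.2) + u (1, p.2, p.1 + p.2 + s.2.2)) := by
        change plantFun N H r s u (2, p.1, p.1 + p.2 + s.2.2) = _
        simp only [plantFun, ez, true_and]
        rw [if_pos hpl]
      refine inst_zero_h N n L h (plant N H r s u) p.1 p.2 (p.1 + p.2 + s.2.2) ?_ ?_ ?_
      · rw [e0, e1, e2]; abel
      · rw [e0, e1]; exact hg1
      · rw [e0, e1]; exact hg2
    have hsplit := Finset.card_filter_add_card_filter_not (s := P) (fun p => good u p)
    have h1 : (P.card : ℝ) = ((P.filter fun p => good u p).card : ℝ) +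
        ((P.filter fun p => ¬ good u p).card : ℝ) := by exact_mod_cast hsplit.symm
    have h2 : ((P.filter fun p => good u p).card : ℝ) ≤ m := by exact_mod_cast hlt.le
    have h3 : (4 : ℝ) * m ≤ P.card := by exact_mod_cast hm.trans hPc
    linarith
  set cU : ℝ := (Fintype.card (Fin 3 × ZMod N × ZMod N → ZMod (2 * L)) : ℝ) with hcU
  set V := univ.filter fun u : Fin 3 × ZMod N × ZMod N → ZMod (2 * L) =>
      ¬ Far m (inst N n L h (plant N H r s u)) with hV
  have hsum : ∑ u : Fin 3 × ZMod N × ZMod N → ZMod (2 * L),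
      ((P.filter fun p => ¬ good u p).card : ℝ) ≤ P.card * (cU / 4) := by
    have h1 : ∑ u : Fin 3 × ZMod N × ZMod N → ZMod (2 * L),
        ((P.filter fun p => ¬ good u p).card : ℝ) =
        ∑ p ∈ P, ((univ.filter fun u : Fin 3 × ZMod N × ZMod N → ZMod (2 * L) =>
          ¬ good u p).card : ℝ) := by
      simp only [Finset.card_filter, Nat.cast_sum]
      rw [Finset.sum_comm]
    rw [h1]
    calc ∑ p ∈ P, ((univ.filter fun u : Fin 3 × ZMod N × ZMod N → ZMod (2 * L) =>
          ¬ good u p).card : ℝ) ≤ ∑ p ∈ P, cU / 4 := by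
          refine sum_le_sum fun p _ => ?_
          exact quart N L p.1 p.2 (p.1 + p.2 + s.2.2)
      _ = P.card * (cU / 4) := by rw [sum_const, nsmul_eq_mul]
  have hVsum : (V.card : ℝ) * (3 / 4 * P.card) ≤ P.card * (cU / 4) := by
    calc (V.card : ℝ) * (3 / 4 * P.card) = ∑ u ∈ V, (3 / 4 * P.card : ℝ) := by
          rw [sum_const, nsmul_eq_mul]
      _ ≤ ∑ u ∈ V, ((P.filter fun p => ¬ good u p).card : ℝ) := by
          refine sum_le_sum fun u hu => ?_
          simp only [hV, mem_filter, mem_univ, true_and] at hu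
          exact hfar u hu
      _ ≤ ∑ u : Fin 3 × ZMod N × ZMod N → ZMod (2 * L),
          ((P.filter fun p => ¬ good u p).card : ℝ) :=
          sum_le_sum_of_subset_of_nonneg (subset_univ _) (fun _ _ _ => by positivity)
      _ ≤ P.card * (cU / 4) := hsum
  have hV3 : (V.card : ℝ) ≤ cU / 3 := by
    have h1 : (P.card : ℝ) * (V.card * (3 / 4)) ≤ P.card * (cU / 4) := by linarith
    have h2 := le_of_mul_le_mul_left h1 hPpos
    linarith
  have htot := Finset.card_filter_add_card_filter_not
    (s := (univ : Finset (Fin 3 × ZMod N × ZMod N → ZMod (2 * L))))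
    (fun u => Far m (inst N n L h (plant N H r s u)))
  have htot' : ((univ.filter fun u : Fin 3 × ZMod N × ZMod N → ZMod (2 * L) =>
      Far m (inst N n L h (plant N H r s u))).card : ℝ) + V.card = cU := by
    rw [hcU, hV, ← Finset.card_univ]
    exact_mod_cast htot
  linarith

end ETFar
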