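import Pool.Agent.H29.ET.Defs

open Finset

namespace ETFar

/-- the statement of `inst_yes` -/
def INST_YES_S : Prop := ∀ (N n L : ℕ) (h : 3 * N ≤ n) [NeZero N] [NeZero L]
    (u : Fin 3 × ZMod N × ZMod N → ZMod (2 * L))
    (_ : ∃ i j k, Zero (inst N n L h u) i j k),
    ∃ x y z : ZMod N, u (0, x, y) + u (1, y, z) + u (2, x, z) = 0

theorem card_sum_zero (N L : ℕ) [NeZero N] [NeZero L] (x y z : ZMod N) :
    (univ.filter fun u : Fin 3 × ZMod N × ZMod N → ZMod (2 * L) =>
      u (0, x, y) + u (1, y, z) + u (2, x, z) = 0).card * (2 * L) =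
    Fintype.card (Fin 3 × ZMod N × ZMod N → ZMod (2 * L)) := by
  classical
  have key : ∀ g : ZMod (2 * L),
      (univ.filter fun u : Fin 3 × ZMod N × ZMod N → ZMod (2 * L) =>
        u (0, x, y) + u (1, y, z) + u (2, x, z) = g).card =
      (univ.filter fun u : Fin 3 × ZMod N × ZMod N → ZMod (2 * L) =>
        u (0, x, y) + u (1, y, z) + u (2, x, z) = 0).card := by
    intro g
    apply Finset.card_bij' (fun u _ => u - Pi.single (0, x, y) g)
      (fun u _ => u + Pi.single (0, x, y) g)
    case left_inv => intro u _; simp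
    case right_inv => intro u _; simp
    · intro u hu
      rw [mem_filter] at hu ⊢
      refine ⟨mem_univ _, ?_⟩
      have e1 : (Pi.single (0, x, y) g : Fin 3 × ZMod N × ZMod N → ZMod (2 * L)) (0, x, y) = g :=
        Pi.single_eq_same _ _
      have e2 : (Pi.single (0, x, y) g : Fin 3 × ZMod N × ZMod N → ZMod (2 * L)) (1, y, z) = 0 :=
        Pi.single_eq_of_ne (by simp) _
      have e3 : (Pi.single (0, x, y) g : Fin 3 × ZMod N × ZMod N → ZMod (2 * L)) (2, x, z) = 0 :=
        Pi.single_eq_of_ne (by simp) _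
      simp only [Pi.sub_apply, e1, e2, e3]
      rw [← hu.2]
      ring
    · intro u hu
      rw [mem_filter] at hu ⊢
      refine ⟨mem_univ _, ?_⟩
      have e1 : (Pi.single (0, x, y) g : Fin 3 × ZMod N × ZMod N → ZMod (2 * L)) (0, x, y) = g :=
        Pi.single_eq_same _ _
      have e2 : (Pi.single (0, x, y) g : Fin 3 × ZMod N × ZMod N → ZMod (2 * L)) (1, y, z) = 0 :=
        Pi.single_eq_of_ne (by simp) _
      have e3 : (Pi.single (0, x, y) g : Fin 3 × ZMod N × ZMod N → ZMod (2 * L)) (2, x, z) = 0 :=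
        Pi.single_eq_of_ne (by simp) _
      simp only [Pi.add_apply, e1, e2, e3]
      have := hu.2
      linear_combination this
  have h1 := Finset.card_eq_sum_card_fiberwise
    (f := fun u : Fin 3 × ZMod N × ZMod N → ZMod (2 * L) =>
      u (0, x, y) + u (1, y, z) + u (2, x, z)) (s := univ) (t := univ) (fun _ _ => by simp)
  rw [card_univ] at h1
  rw [h1, Finset.sum_congr rfl (fun g _ => key g), sum_const, card_univ, ZMod.card, smul_eq_mul,
    mul_comm]

open Classical in
theorem few_yes (hyes : INST_YES_S) (N n L : ℕ) (h : 3 * N ≤ n) [NeZero N] [NeZero L] :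
    ((univ.filter fun u : Fin 3 × ZMod N × ZMod N → ZMod (2 * L) =>
      ∃ i j k, Zero (inst N n L h u) i j k).card : ℝ) ≤
    (N : ℝ) ^ 3 / (2 * L) * Fintype.card (Fin 3 × ZMod N × ZMod N → ZMod (2 * L)) := by
  have hL : 0 < L := NeZero.pos L
  have hsub : (univ.filter fun u : Fin 3 × ZMod N × ZMod N → ZMod (2 * L) =>
      ∃ i j k, Zero (inst N n L h u) i j k) ⊆
      (univ : Finset (ZMod N × ZMod N × ZMod N)).biUnion fun t =>
        univ.filter fun u : Fin 3 × ZMod N × ZMod N → ZMod (2 * L) =>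
          u (0, t.1, t.2.1) + u (1, t.2.1, t.2.2) + u (2, t.1, t.2.2) = 0 := by
    intro u hu
    rw [mem_filter] at hu
    obtain ⟨x, y, z, h1⟩ := hyes N n L h u hu.2
    rw [mem_biUnion]
    exact ⟨(x, y, z), mem_univ _, by rw [mem_filter]; exact ⟨mem_univ _, h1⟩⟩
  have h1 : (univ.filter fun u : Fin 3 × ZMod N × ZMod N → ZMod (2 * L) =>
      ∃ i j k, Zero (inst N n L h u) i j k).card * (2 * L) ≤
      N ^ 3 * Fintype.card (Fin 3 × ZMod N × ZMod N → ZMod (2 * L)) := by
    calc _ ≤ (∑ t : ZMod N × ZMod N × ZMod N,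
          (univ.filter fun u : Fin 3 × ZMod N × ZMod N → ZMod (2 * L) =>
          u (0, t.1, t.2.1) + u (1, t.2.1, t.2.2) + u (2, t.1, t.2.2) = 0).card) * (2 * L) :=
          Nat.mul_le_mul_right _ ((Finset.card_le_card hsub).trans Finset.card_biUnion_le)
      _ = ∑ t : ZMod N × ZMod N × ZMod N,
          Fintype.card (Fin 3 × ZMod N × ZMod N → ZMod (2 * L)) := by
          rw [Finset.sum_mul]
          apply Finset.sum_congr rfl
          intro t _
          convert card_sum_zero N L t.1 t.2.1 t.2.2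
      _ = _ := by
          rw [sum_const, card_univ, smul_eq_mul, Fintype.card_prod, Fintype.card_prod, ZMod.card]
          ring
  have h2 : ((univ.filter fun u : Fin 3 × ZMod N × ZMod N → ZMod (2 * L) =>
      ∃ i j k, Zero (inst N n L h u) i j k).card : ℝ) * (2 * L) ≤
      (N : ℝ) ^ 3 * Fintype.card (Fin 3 × ZMod N × ZMod N → ZMod (2 * L)) := by
    exact_mod_cast h1
  have hLR : (0 : ℝ) < 2 * L := by
    have : (0 : ℝ) < L := by exact_mod_cast hL
    linarith
  rw [div_mul_eq_mul_div, le_div_iff₀ hLR]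
  exact h2

end ETFar
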