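import Pool.Agent.H29.ET.Defs

open Finset

namespace ETFar

/-- The algorithm for the instances `inst N n L h u`. -/
theorem pull (N n L : ℕ) (h : 3 * N ≤ n) [NeZero N] (T : Tree (Fin n × Fin n) (Bool × ℤ)) :
    ∃ T' : Tree (Fin 3 × ZMod N × ZMod N) (ZMod (2 * L)), ∀ u,
      T'.run u = T.run (inst N n L h u) ∧ (T'.cells u).card ≤ T.reads (inst N n L h u) := by
  induction T with
  | leaf b => exact ⟨.leaf b, fun u => by simp [Tree.run, Tree.cells, Tree.reads]⟩
  | read ij f ih =>
    cases hl : loc N n h ij with
    | none =>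
      obtain ⟨T', hT'⟩ := ih (false, 0)
      refine ⟨T', fun u => ?_⟩
      have e : inst N n L h u ij = (false, 0) := by
        simp [inst, hl]
      simp only [Tree.run, Tree.reads, e]
      exact ⟨(hT' u).1, (hT' u).2.trans (Nat.le_succ _)⟩
    | some c =>
      choose g hg using fun gv => ih (true, wval N L c gv)
      refine ⟨.read c g, fun u => ?_⟩
      have e : inst N n L h u ij = (true, wval N L c (u c)) := by
        simp [inst, hl]
      simp only [Tree.run, Tree.reads, Tree.cells, e]
      refine ⟨(hg (u c) u).1, ?_⟩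
      exact (Finset.card_insert_le _ _).trans (Nat.succ_le_succ (hg (u c) u).2)

end ETFar
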