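import Pool.Agent.H29.ET.Defs

/-! # Part SURJ of crew ET -/

open Finset

namespace ETFar

theorem plant_surj (N h r : ℕ) [NeZero N] {G : Type} [AddCommGroup G]
    (s : ZMod N × ZMod N × ZMod N) (R : Finset (Fin 3 × ZMod N × ZMod N))
    (hR : ¬ Bad N h r s R) (a : Fin 3 × ZMod N × ZMod N → G) :
    ∃ v, ∀ c ∈ R, plant N h r s v c = a c := by
  classical
  let v : Fin 3 × ZMod N × ZMod N → G := fun c =>
    if c ∈ R then a c
    else if c.1 = 0 then
      -(a (2, c.2.1, c.2.1 + c.2.2 + s.2.2) +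
        if (1, c.2.2, c.2.1 + c.2.2 + s.2.2) ∈ R then a (1, c.2.2, c.2.1 + c.2.2 + s.2.2) else 0)
    else if (0, c.2.2 - c.2.1 - s.2.2, c.2.1) ∈ R then
      -(a (2, c.2.2 - c.2.1 - s.2.2, c.2.2) + a (0, c.2.2 - c.2.1 - s.2.2, c.2.1))
    else 0
  have vin : ∀ c ∈ R, v c = a c := fun c hc => if_pos hc
  refine ⟨v, ?_⟩
  rintro ⟨i, x, z⟩ hc
  show plantFun N h r s v (i, x, z) = a (i, x, z)
  unfold plantFun
  by_cases hp : (i, x, z).1 = 2 ∧ Planted N h r s (i, x, z).2.1 ((i, x, z).2.2 - (i, x, z).2.1 - s.2.2)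
  · rw [if_pos hp]
    obtain ⟨hi, hp⟩ := hp
    simp only at hi hp ⊢
    subst hi
    set y := z - x - s.2.2 with hy
    have hz : x + y + s.2.2 = z := by rw [hy]; ring
    have hx : z - y - s.2.2 = x := by rw [hy]; ring
    by_cases h0 : ((0 : Fin 3), x, y) ∈ R
    · have h1 : ((1 : Fin 3), y, z) ∉ R := by
        intro h1
        exact hR ⟨x, y, hp, h0, by rw [hz]; exact h1, by rw [hz]; exact hc⟩
      have e1 : v ((1 : Fin 3), y, z) = -(a (2, x, z) + a (0, x, y)) := by
        show (if _ then _ else _) = _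
        rw [if_neg h1]
        simp only
        rw [if_neg (by decide), hx, if_pos h0]
      rw [vin _ h0, e1]
      abel
    · have e0 : v ((0 : Fin 3), x, y) = -(a (2, x, z) +
          if ((1 : Fin 3), y, z) ∈ R then a (1, y, z) else 0) := by
        show (if _ then _ else _) = _
        rw [if_neg h0]
        simp only
        rw [if_pos trivial, hz]
      by_cases h1 : ((1 : Fin 3), y, z) ∈ R
      · rw [e0, vin _ h1, if_pos h1]
        abel
      · have e1 : v ((1 : Fin 3), y, z) = 0 := by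
          show (if _ then _ else _) = _
          rw [if_neg h1]
          simp only
          rw [if_neg (by decide), hx, if_neg h0]
        rw [e0, e1, if_neg h1]
        abel
  · rw [if_neg hp]
    exact vin _ hc

end ETFar
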