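import Pool.Agent.H29.ET.CORE
import Pool.Agent.H29.ET.COUNT1
import Pool.Agent.H29.ET.COUNT2
import Pool.Agent.H29.ET.SURJ
import Pool.Agent.H29.ET.PULL
import Pool.Agent.H29.ET.NOINST
import Pool.Agent.H29.ET.MARKOV
import Pool.Agent.H80.ET.INST

/-! # Exact Triangle with many zero triangles: the lower bound -/

open Finset

namespace ETFar

theorem lowerW (N n m H r q : ℕ) (h : 3 * N ≤ n) (hN : 1 ≤ N) (hn : 10 ≤ n)
    (hH1 : 1 ≤ H) (hr1 : 1 ≤ r) (hHN : H ≤ N) (hrN : r ≤ N) (hm : 4 * m ≤ H * r)
    (Ω : Type) [Fintype Ω] (p : Ω → ℝ) (hp : ∀ ω, 0 ≤ p ω) (hp1 : ∑ ω, p ω = 1)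
    (A : Ω → Tree (Fin n × Fin n) (Bool × ℤ))
    (hq : ∀ ω x, Valid x → (A ω).reads x ≤ q)
    (hyes : ∀ x, Valid x → Far m x → 19 / 30 ≤ ∑ ω with (A ω).run x = true, p ω)
    (hno : ∀ x, Valid x → (¬ ∃ i j k, Zero x i j k) →
      ∑ ω with (A ω).run x = true, p ω ≤ 1 / 3) :
    (N : ℝ) ^ 3 / 13 ≤ H * r * (q : ℝ) ^ (3 / 2 : ℝ) ∧
      (N : ℝ) ^ 3 / 13 ≤ H * N * √r * q := by
  classical
  have : NeZero N := ⟨by omega⟩
  set L : ℕ := 45 * n ^ 3 with hLdef
  have hLpos : 0 < L := by positivity
  have : NeZero L := ⟨hLpos.ne'⟩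
  have hL : 3 * L ≤ n ^ 300 := by
    have h1 : 135 ≤ n ^ 297 := by
      calc 135 ≤ 10 ^ 3 := by norm_num
        _ ≤ n ^ 3 := Nat.pow_le_pow_left hn 3
        _ ≤ n ^ 297 := Nat.pow_le_pow_right (by omega) (by norm_num)
    calc 3 * L = 135 * n ^ 3 := by rw [hLdef]; ring
      _ ≤ n ^ 297 * n ^ 3 := Nat.mul_le_mul_right _ h1
      _ = n ^ 300 := by rw [← pow_add]
  choose T' hT' using fun ω => pull N n L h (A ω)
  -- notation
  let U := Fin 3 × ZMod N × ZMod N → ZMod (2 * L)
  have hcU : (0 : ℝ) < (Fintype.card (Fin 3 × ZMod N × ZMod N → ZMod (2 * L)) : ℝ) := by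
    exact_mod_cast Fintype.card_pos
  set cU : ℝ := (Fintype.card (Fin 3 × ZMod N × ZMod N → ZMod (2 * L)) : ℝ) with hcUdef
  have hcS : (Fintype.card (ZMod N × ZMod N × ZMod N) : ℝ) = (N : ℝ) ^ 3 := by
    simp [Fintype.card_prod, ZMod.card]; ring
  have hval : ∀ u, Valid (inst N n L h u) := inst_valid N n L h hL
  have main : ∀ B : ℝ, (∀ R : Finset (Fin 3 × ZMod N × ZMod N), R.card ≤ q →
      ((univ.filter fun s => Bad N H r s R).card : ℝ) ≤ B) → (N : ℝ) ^ 3 / 13 ≤ B := by
    intro B hB
    -- core for every ω and s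
    have hcore : ∀ ω s, ((univ.filter fun u : Fin 3 × ZMod N × ZMod N → ZMod (2 * L) =>
        (A ω).run (inst N n L h (plant N H r s u)) = true).card : ℝ) ≤
        ((univ.filter fun u : Fin 3 × ZMod N × ZMod N → ZMod (2 * L) =>
          (A ω).run (inst N n L h u) = true).card : ℝ) +
        ((univ.filter fun u : Fin 3 × ZMod N × ZMod N → ZMod (2 * L) =>
          Bad N H r s ((T' ω).cells u)).card : ℝ) := by
      intro ω s
      have hc := core (plant N H r (G := ZMod (2 * L)) s) (Bad N H r s)
        (by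
          rintro R S hRS ⟨x, y, h0, h1, h2, h3⟩
          exact ⟨x, y, h0, hRS h1, hRS h2, hRS h3⟩)
        (fun R hR a => plant_surj N H r s R hR a) (T' ω)
      have e1 : (univ.filter fun u : Fin 3 × ZMod N × ZMod N → ZMod (2 * L) =>
          (T' ω).run (plant N H r s u) = true) =
          (univ.filter fun u : Fin 3 × ZMod N × ZMod N → ZMod (2 * L) =>
          (A ω).run (inst N n L h (plant N H r s u)) = true) := by
        apply Finset.filter_congr; intro u _; rw [(hT' ω _).1]
      have e2 : (univ.filter fun u : Fin 3 × ZMod N × ZMod N → ZMod (2 * L) =>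
          (T' ω).run u = true) =
          (univ.filter fun u : Fin 3 × ZMod N × ZMod N → ZMod (2 * L) =>
          (A ω).run (inst N n L h u) = true) := by
        apply Finset.filter_congr; intro u _; rw [(hT' ω _).1]
      rw [e1, e2] at hc
      exact_mod_cast hc
    -- swap sums: for a family of predicates
    have swap : ∀ (f : (Fin 3 × ZMod N × ZMod N → ZMod (2 * L)) → Inst n),
        ∑ ω, p ω * ((univ.filter fun u => (A ω).run (f u) = true).card : ℝ) =
        ∑ u, ∑ ω with (A ω).run (f u) = true, p ω := by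
      intro f
      have e1 : ∀ ω, p ω * ((univ.filter fun u => (A ω).run (f u) = true).card : ℝ) =
          ∑ u, if (A ω).run (f u) = true then p ω else 0 := by
        intro ω
        rw [Finset.card_filter, Nat.cast_sum, Finset.mul_sum]
        apply Finset.sum_congr rfl
        intro u _
        split_ifs <;> simp
      rw [Finset.sum_congr rfl (fun ω _ => e1 ω), Finset.sum_comm]
      apply Finset.sum_congr rfl
      intro u _
      rw [Finset.sum_filter]
    -- lower bound of the left hand side
    have hL1 : ∀ s, 19 / 45 * cU ≤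
        ∑ ω, p ω * ((univ.filter fun u : Fin 3 × ZMod N × ZMod N → ZMod (2 * L) =>
          (A ω).run (inst N n L h (plant N H r s u)) = true).card : ℝ) := by
      intro s
      rw [swap fun u => inst N n L h (plant N H r s u)]
      have hf := many_far_of (fun N n L h _ _ u x y z hs h1 h2 => inst_zero N n L h u x y z hs h1 h2)
        N n L H r m h hH1 hr1 hHN hrN hm s
      calc 19 / 45 * cU = (2 / 3 * cU) * (19 / 30) := by ring
        _ ≤ ((univ.filter fun u : Fin 3 × ZMod N × ZMod N → ZMod (2 * L) =>
              Far m (inst N n L h (plant N H r s u))).card : ℝ) * (19 / 30) := by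
            apply mul_le_mul_of_nonneg_right _ (by norm_num)
            convert hf using 2
        _ = ∑ u ∈ univ.filter fun u : Fin 3 × ZMod N × ZMod N → ZMod (2 * L) =>
              Far m (inst N n L h (plant N H r s u)), (19 / 30 : ℝ) := by
            rw [Finset.sum_const, nsmul_eq_mul]
        _ ≤ ∑ u ∈ univ.filter fun u : Fin 3 × ZMod N × ZMod N → ZMod (2 * L) =>
              Far m (inst N n L h (plant N H r s u)),
              ∑ ω with (A ω).run (inst N n L h (plant N H r s u)) = true, p ω := by
            apply Finset.sum_le_sum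
            intro u hu
            exact hyes _ (hval _) (Finset.mem_filter.mp hu).2
        _ ≤ _ := by
            apply Finset.sum_le_sum_of_subset_of_nonneg (Finset.filter_subset _ _)
            intro u _ _
            exact Finset.sum_nonneg fun ω _ => hp ω
    have hR1 : ∑ ω, p ω * ((univ.filter fun u : Fin 3 × ZMod N × ZMod N → ZMod (2 * L) =>
          (A ω).run (inst N n L h u) = true).card : ℝ) ≤ cU / 3 + (N : ℝ) ^ 3 / (2 * L) * cU := by
      rw [swap fun u => inst N n L h u]
      have hfew := few_yes (fun N n L h _ _ u hu => inst_yes N n L h u hu) N n L h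
      have hle1 : ∀ u : Fin 3 × ZMod N × ZMod N → ZMod (2 * L),
          ∑ ω with (A ω).run (inst N n L h u) = true, p ω ≤
            1 / 3 + (if ∃ i j k, Zero (inst N n L h u) i j k then (1 : ℝ) else 0) := by
        intro u
        split_ifs with hz
        · have : ∑ ω with (A ω).run (inst N n L h u) = true, p ω ≤ ∑ ω, p ω :=
            Finset.sum_le_sum_of_subset_of_nonneg (Finset.filter_subset _ _)
              (fun ω _ _ => hp ω)
          linarith
        · have := hno _ (hval u) hz
          linarith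
      calc ∑ u : Fin 3 × ZMod N × ZMod N → ZMod (2 * L),
            ∑ ω with (A ω).run (inst N n L h u) = true, p ω ≤
            ∑ u : Fin 3 × ZMod N × ZMod N → ZMod (2 * L),
              (1 / 3 + (if ∃ i j k, Zero (inst N n L h u) i j k then (1 : ℝ) else 0)) :=
            Finset.sum_le_sum fun u _ => hle1 u
        _ = cU / 3 + ((univ.filter fun u : Fin 3 × ZMod N × ZMod N → ZMod (2 * L) =>
              ∃ i j k, Zero (inst N n L h u) i j k).card : ℝ) := by
            rw [Finset.sum_add_distrib, Finset.sum_const, Finset.card_univ, nsmul_eq_mul,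
              Finset.card_filter, Nat.cast_sum]
            have : ∀ u : Fin 3 × ZMod N × ZMod N → ZMod (2 * L),
              (((if ∃ i j k, Zero (inst N n L h u) i j k then 1 else 0 : ℕ) : ℕ) : ℝ) =
              (if ∃ i j k, Zero (inst N n L h u) i j k then (1 : ℝ) else 0) := by
              intro u; split_ifs <;> simp
            rw [Finset.sum_congr rfl fun u _ => this u]
            ring
        _ ≤ _ := by
            have h2 : ((univ.filter fun u : Fin 3 × ZMod N × ZMod N → ZMod (2 * L) =>
              ∃ i j k, Zero (inst N n L h u) i j k).card : ℝ) ≤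
              (N : ℝ) ^ 3 / (2 * L) * cU := by
              convert hfew using 2
            linarith
    have hR2 : ∀ ω, ∑ s, ((univ.filter fun u : Fin 3 × ZMod N × ZMod N → ZMod (2 * L) =>
          Bad N H r s ((T' ω).cells u)).card : ℝ) ≤ cU * B := by
      intro ω
      have e1 : ∑ s, ((univ.filter fun u : Fin 3 × ZMod N × ZMod N → ZMod (2 * L) =>
          Bad N H r s ((T' ω).cells u)).card : ℝ) =
          ∑ u : Fin 3 × ZMod N × ZMod N → ZMod (2 * L),
            ((univ.filter fun s => Bad N H r s ((T' ω).cells u)).card : ℝ) := by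
        simp only [Finset.card_filter, Nat.cast_sum]
        exact Finset.sum_comm
      rw [e1]
      calc _ ≤ ∑ u : Fin 3 × ZMod N × ZMod N → ZMod (2 * L), B := by
            apply Finset.sum_le_sum
            intro u _
            exact hB _ ((hT' ω u).2.trans (hq ω _ (hval u)))
        _ = cU * B := by
            rw [Finset.sum_const, Finset.card_univ, nsmul_eq_mul]
    -- combine
    have hsum : ∑ s : ZMod N × ZMod N × ZMod N, (19 / 45 * cU) ≤
        (N : ℝ) ^ 3 * (cU / 3 + (N : ℝ) ^ 3 / (2 * L) * cU) + cU * B := by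
      calc ∑ s : ZMod N × ZMod N × ZMod N, (19 / 45 * cU) ≤
          ∑ s, ∑ ω, p ω * ((univ.filter fun u : Fin 3 × ZMod N × ZMod N → ZMod (2 * L) =>
          (A ω).run (inst N n L h (plant N H r s u)) = true).card : ℝ) :=
            Finset.sum_le_sum fun s _ => hL1 s
        _ ≤ ∑ s, ∑ ω, (p ω * ((univ.filter fun u : Fin 3 × ZMod N × ZMod N → ZMod (2 * L) =>
          (A ω).run (inst N n L h u) = true).card : ℝ) + p ω *
          ((univ.filter fun u : Fin 3 × ZMod N × ZMod N → ZMod (2 * L) =>
          Bad N H r s ((T' ω).cells u)).card : ℝ)) := by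
            apply Finset.sum_le_sum; intro s _
            apply Finset.sum_le_sum; intro ω _
            rw [← mul_add]
            exact mul_le_mul_of_nonneg_left (hcore ω s) (hp ω)
        _ = ∑ s : ZMod N × ZMod N × ZMod N,
              (∑ ω, p ω * ((univ.filter fun u : Fin 3 × ZMod N × ZMod N → ZMod (2 * L) =>
              (A ω).run (inst N n L h u) = true).card : ℝ)) +
            ∑ ω, p ω * ∑ s, ((univ.filter fun u : Fin 3 × ZMod N × ZMod N → ZMod (2 * L) =>
              Bad N H r s ((T' ω).cells u)).card : ℝ) := by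
            simp only [Finset.sum_add_distrib]
            congr 1
            rw [Finset.sum_comm]
            apply Finset.sum_congr rfl
            intro ω _
            rw [Finset.mul_sum]
        _ ≤ (N : ℝ) ^ 3 * (cU / 3 + (N : ℝ) ^ 3 / (2 * L) * cU) + cU * B := by
            apply add_le_add
            · rw [Finset.sum_const, Finset.card_univ, nsmul_eq_mul, hcS]
              exact mul_le_mul_of_nonneg_left hR1 (by positivity)
            · calc ∑ ω, p ω * ∑ s, ((univ.filter fun u : Fin 3 × ZMod N × ZMod N →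
                    ZMod (2 * L) => Bad N H r s ((T' ω).cells u)).card : ℝ) ≤
                  ∑ ω, p ω * (cU * B) := by
                    apply Finset.sum_le_sum; intro ω _
                    exact mul_le_mul_of_nonneg_left (hR2 ω) (hp ω)
                _ = cU * B := by rw [← Finset.sum_mul, hp1, one_mul]
    rw [Finset.sum_const, Finset.card_univ, nsmul_eq_mul, hcS] at hsum
    have hN3 : (N : ℝ) ^ 3 / (2 * L) ≤ 1 / 90 := by
      have h1 : (N : ℝ) ≤ n := by exact_mod_cast (by omega : N ≤ n)
      have h2 : (N : ℝ) ^ 3 ≤ (n : ℝ) ^ 3 := pow_le_pow_left₀ (by positivity) h1 3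
      have h3 : (0 : ℝ) < (n : ℝ) ^ 3 := by positivity
      have h4 : (L : ℝ) = 45 * (n : ℝ) ^ 3 := by rw [hLdef]; push_cast; ring
      rw [h4, div_le_iff₀ (by positivity)]
      linarith
    have h5 : (N : ℝ) ^ 3 * ((N : ℝ) ^ 3 / (2 * L)) ≤ (N : ℝ) ^ 3 * (1 / 90) :=
      mul_le_mul_of_nonneg_left hN3 (by positivity)
    have h6 : cU * ((N : ℝ) ^ 3 / 13) ≤ cU * B := by nlinarith
    exact le_of_mul_le_mul_left h6 hcU
  constructor
  · apply main
    intro R hR
    refine (bad_count1 N H r R).trans ?_
    apply mul_le_mul_of_nonneg_left _ (by positivity)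
    exact Real.rpow_le_rpow (by positivity) (by exact_mod_cast hR) (by norm_num)
  · apply main
    intro R hR
    refine (bad_count2 N H r R).trans ?_
    apply mul_le_mul_of_nonneg_left _ (by positivity)
    exact_mod_cast hR

/-- Stop after `k` reads (with the answer no). -/
def Tree.trunc {κ β : Type} : ℕ → Tree κ β → Tree κ β
  | _, .leaf b => .leaf b
  | 0, .read _ _ => .leaf false
  | k + 1, .read c f => .read c fun b => (f b).trunc k

theorem Tree.reads_trunc {κ β : Type} (T : Tree κ β) : ∀ (k : ℕ) (x : κ → β),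
    (T.trunc k).reads x ≤ k := by
  induction T with
  | leaf b => intro k x; cases k <;> simp [Tree.trunc, Tree.reads]
  | read c f ih =>
    intro k x
    cases k with
    | zero => simp [Tree.trunc, Tree.reads]
    | succ k => simpa [Tree.trunc, Tree.reads] using ih (x c) k x

theorem Tree.run_trunc {κ β : Type} (T : Tree κ β) : ∀ (k : ℕ) (x : κ → β),
    T.reads x ≤ k → (T.trunc k).run x = T.run x := by
  induction T with
  | leaf b => intro k x _; cases k <;> simp [Tree.trunc, Tree.run]
  | read c f ih =>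
    intro k x h
    cases k with
    | zero => simp [Tree.reads] at h
    | succ k =>
      simp only [Tree.trunc, Tree.run]
      exact ih (x c) k x (by simpa [Tree.reads] using h)

theorem Tree.run_of_trunc {κ β : Type} (T : Tree κ β) : ∀ (k : ℕ) (x : κ → β),
    (T.trunc k).run x = true → T.run x = true := by
  induction T with
  | leaf b => intro k x h; cases k <;> simpa [Tree.trunc, Tree.run] using h
  | read c f ih =>
    intro k x h
    cases k with
    | zero => simp [Tree.trunc, Tree.run] at h
    | succ k =>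
      simp only [Tree.trunc, Tree.run] at h ⊢
      exact ih (x c) k x h

theorem lowerMean (N n m H r q : ℕ) (h : 3 * N ≤ n) (hN : 1 ≤ N) (hn : 10 ≤ n)
    (hH1 : 1 ≤ H) (hr1 : 1 ≤ r) (hHN : H ≤ N) (hrN : r ≤ N) (hm : 4 * m ≤ H * r)
    (Ω : Type) [Fintype Ω] (p : Ω → ℝ) (hp : ∀ ω, 0 ≤ p ω) (hp1 : ∑ ω, p ω = 1)
    (A : Ω → Tree (Fin n × Fin n) (Bool × ℤ))
    (hq : ∀ x, Valid x → Far m x → ∑ ω, p ω * (A ω).reads x ≤ q)
    (hyes : ∀ x, Valid x → Far m x → 2 / 3 ≤ ∑ ω with (A ω).run x = true, p ω)
    (hno : ∀ x, Valid x → (¬ ∃ i j k, Zero x i j k) →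
      ∑ ω with (A ω).run x = true, p ω ≤ 1 / 3) :
    (N : ℝ) ^ 3 / 10 ≤ H * r * ((40 * q : ℕ) : ℝ) ^ (3 / 2 : ℝ) ∧
      (N : ℝ) ^ 3 / 10 ≤ H * N * √r * ((40 * q : ℕ) : ℝ) := by
  classical
  have key := lowerW N n m H r (30 * q) h hN hn hH1 hr1 hHN hrN hm Ω p hp hp1
    (fun ω => (A ω).trunc (30 * q)) (fun ω x _ => Tree.reads_trunc _ _ _)
    (by
      intro x hx hF
      have h1 := hyes x hx hF
      have h2 := hq x hx hF
      have h3 : ∑ ω with (A ω).run x = true, p ω ≤
          ∑ ω with ((A ω).trunc (30 * q)).run x = true, p ω +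
            ∑ ω with 30 * q < (A ω).reads x, p ω := by
        rw [Finset.sum_filter, Finset.sum_filter, Finset.sum_filter, ← Finset.sum_add_distrib]
        apply Finset.sum_le_sum
        intro ω _
        by_cases hb : 30 * q < (A ω).reads x
        · simp only [hb, if_true]
          have := hp ω
          split_ifs <;> linarith
        · have h5 : ((A ω).trunc (30 * q)).run x = (A ω).run x :=
            Tree.run_trunc _ _ _ (not_lt.mp hb)
          simp only [hb, h5, if_false, add_zero, le_refl]
      have h4 : ∑ ω with 30 * q < (A ω).reads x, p ω ≤ 1 / 30 := by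
        rcases Nat.eq_zero_or_pos q with h0 | h0
        · -- then all reads vanish almost surely
          subst h0
          have h6 : ∑ ω with 30 * 0 < (A ω).reads x, p ω ≤ ∑ ω, p ω * (A ω).reads x := by
            rw [Finset.sum_filter]
            apply Finset.sum_le_sum
            intro ω _
            split_ifs with h7
            · have h8 : (1 : ℝ) ≤ (A ω).reads x := by exact_mod_cast (by omega : 1 ≤ (A ω).reads x)
              have := hp ω
              nlinarith
            · exact mul_nonneg (hp ω) (by positivity)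
          have : ((0 : ℕ) : ℝ) = 0 := by norm_num
          rw [this] at h2
          linarith
        · have h6 : (30 * q : ℝ) * ∑ ω with 30 * q < (A ω).reads x, p ω ≤
              ∑ ω, p ω * (A ω).reads x := by
            rw [Finset.mul_sum, Finset.sum_filter]
            apply Finset.sum_le_sum
            intro ω _
            split_ifs with h7
            · have h8 : (30 * q : ℝ) ≤ (A ω).reads x := by exact_mod_cast h7.le
              have := hp ω
              nlinarith
            · exact mul_nonneg (hp ω) (by positivity)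
          have hq0 : (0 : ℝ) < q := by exact_mod_cast h0
          have h9 : (30 * q : ℝ) * ∑ ω with 30 * q < (A ω).reads x, p ω ≤ (30 * q : ℝ) * (1 / 30) := by
            linarith
          exact le_of_mul_le_mul_left h9 (by positivity)
      linarith)
    (by
      intro x hx hn0
      refine le_trans ?_ (hno x hx hn0)
      apply Finset.sum_le_sum_of_subset_of_nonneg
      · intro ω hω
        simp only [Finset.mem_filter, Finset.mem_univ, true_and] at hω ⊢
        exact Tree.run_of_trunc _ _ _ hω
      · intro ω _ _; exact hp ω)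
  obtain ⟨k1, k2⟩ := key
  have hq0 : (0 : ℝ) ≤ q := by positivity
  constructor
  · have e : (((40 * q : ℕ) : ℝ)) ^ (3 / 2 : ℝ) =
        (4 / 3 : ℝ) ^ (3 / 2 : ℝ) * (((30 * q : ℕ) : ℝ)) ^ (3 / 2 : ℝ) := by
      rw [← Real.mul_rpow (by norm_num) (by positivity)]
      congr 1; push_cast; ring
    have e2 : (13 / 10 : ℝ) ≤ (4 / 3 : ℝ) ^ (3 / 2 : ℝ) := by
      calc (13 / 10 : ℝ) ≤ (4 / 3 : ℝ) ^ (1 : ℝ) := by norm_num
        _ ≤ _ := Real.rpow_le_rpow_of_exponent_le (by norm_num) (by norm_num)
    rw [e]
    have h3 : (0 : ℝ) ≤ (((30 * q : ℕ) : ℝ)) ^ (3 / 2 : ℝ) := by positivity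
    calc (N : ℝ) ^ 3 / 10 = 13 / 10 * ((N : ℝ) ^ 3 / 13) := by ring
      _ ≤ 13 / 10 * (H * r * (((30 * q : ℕ) : ℝ)) ^ (3 / 2 : ℝ)) := by linarith
      _ ≤ (4 / 3 : ℝ) ^ (3 / 2 : ℝ) * (H * r * (((30 * q : ℕ) : ℝ)) ^ (3 / 2 : ℝ)) :=
          mul_le_mul_of_nonneg_right e2 (by positivity)
      _ = _ := by ring
  · calc (N : ℝ) ^ 3 / 10 = 13 / 10 * ((N : ℝ) ^ 3 / 13) := by ring
      _ ≤ 13 / 10 * (H * N * √r * ((30 * q : ℕ) : ℝ)) := by linarith
      _ ≤ 4 / 3 * (H * N * √r * ((30 * q : ℕ) : ℝ)) :=
          mul_le_mul_of_nonneg_right (by norm_num) (by positivity)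
      _ = _ := by push_cast; ring

end ETFar
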