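import Pool.Agent.H29.ET.Defs

/-! # Crew ET, part PACK1 (helper6) -/

open Finset

namespace ETFar

/-- the three edges of a triple -/
def tedges {n : ℕ} (t : Fin n × Fin n × Fin n) : Finset (Sym2 (Fin n)) :=
  {s(t.1, t.2.1), s(t.2.1, t.2.2), s(t.1, t.2.2)}

theorem tedges_card_le {n : ℕ} (t : Fin n × Fin n × Fin n) : (tedges t).card ≤ 3 :=
  Finset.card_le_three

theorem pack1 {n : ℕ} (x : Inst n) (m p : ℕ) (hF : Far m x) (hp : 3 * p < m + 3) :
    ∃ T : Finset (Fin n × Fin n × Fin n), T.card = p ∧
      (∀ t ∈ T, Zero x t.1 t.2.1 t.2.2) ∧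
      (∀ t ∈ T, ∀ t' ∈ T, t ≠ t' → Disjoint (tedges t) (tedges t')) := by
  classical
  induction p with
  | zero => exact ⟨∅, rfl, by simp, by simp⟩
  | succ p ih =>
    obtain ⟨T, hc, hz, hd⟩ := ih (by omega)
    have hDc : (T.biUnion tedges).card ≤ 3 * p := by
      calc (T.biUnion tedges).card ≤ ∑ t ∈ T, (tedges t).card := Finset.card_biUnion_le
        _ ≤ ∑ t ∈ T, 3 := Finset.sum_le_sum fun t _ => tedges_card_le t
        _ = 3 * p := by rw [Finset.sum_const, hc, smul_eq_mul, mul_comm]
    obtain ⟨i, j, k, hZ, h1, h2, h3⟩ := hF (T.biUnion tedges) (by omega)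
    have hdis : ∀ t ∈ T, Disjoint (tedges (i, j, k)) (tedges t) := by
      intro t ht
      rw [Finset.disjoint_left]
      intro e he het
      have hmem : e ∈ T.biUnion tedges := Finset.mem_biUnion.2 ⟨t, ht, het⟩
      simp only [tedges, Finset.mem_insert, Finset.mem_singleton] at he
      rcases he with he | he | he
      · exact h1 (he ▸ hmem)
      · exact h2 (he ▸ hmem)
      · exact h3 (he ▸ hmem)
    have hnot : (i, j, k) ∉ T := by
      intro h
      have h4 := hdis _ h
      rw [disjoint_self] at h4
      have h5 : s(i, j) ∈ tedges (i, j, k) := by simp [tedges]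
      rw [h4] at h5
      exact absurd h5 (Finset.notMem_empty _)
    refine ⟨insert (i, j, k) T, ?_, ?_, ?_⟩
    · rw [Finset.card_insert_of_notMem hnot, hc]
    · intro t ht
      rcases Finset.mem_insert.1 ht with h | h
      · rw [h]
        exact hZ
      · exact hz t h
    · intro t ht t' ht' hne
      rcases Finset.mem_insert.1 ht with h | h <;> rcases Finset.mem_insert.1 ht' with h' | h'
      · exact absurd (h.trans h'.symm) hne
      · rw [h]
        exact hdis t' h'
      · rw [h']
        exact (hdis t h).symm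
      · exact hd t h t' h' hne

end ETFar
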