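import Pool.Agent.H29.ET.Defs
import Pool.Agent.H29.ET.PACK1

open Finset

namespace ETFar

theorem zero_swap12 {n : ℕ} {x : Inst n} (hx : Valid x) {i j k : Fin n} (h : Zero x i j k) :
    Zero x j i k := by
  obtain ⟨h1, h2, h3, h4, h5, h6, h7⟩ := h
  have e := hx.1 i j
  refine ⟨h1.symm, h3, h2, ?_, h6, h5, ?_⟩
  · rw [← e]; exact h4
  · rw [← e]; linarith

theorem zero_swap13 {n : ℕ} {x : Inst n} (hx : Valid x) {i j k : Fin n} (h : Zero x i j k) :
    Zero x k j i := by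
  obtain ⟨h1, h2, h3, h4, h5, h6, h7⟩ := h
  have e1 := hx.1 i j
  have e2 := hx.1 j k
  have e3 := hx.1 i k
  refine ⟨h2.symm, h1.symm, h3.symm, ?_, ?_, ?_, ?_⟩
  · rw [← e2]; exact h5
  · rw [← e1]; exact h4
  · rw [← e3]; exact h6
  · rw [← e1, ← e2, ← e3]; linarith

/-- reorder a triple such that a heavy vertex comes first -/
def reo {n : ℕ} (H : Finset (Fin n)) (t : Fin n × Fin n × Fin n) : Fin n × Fin n × Fin n :=
  if t.2.1 ∈ H then (t.2.1, t.1, t.2.2) else if t.2.2 ∈ H then (t.2.2, t.2.1, t.1) else t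

theorem tedges_reo {n : ℕ} (H : Finset (Fin n)) (t : Fin n × Fin n × Fin n) :
    tedges (reo H t) = tedges t := by
  unfold reo
  split_ifs
  · ext e
    simp only [tedges, Finset.mem_insert, Finset.mem_singleton]
    rw [show s(t.2.1, t.1) = s(t.1, t.2.1) from Sym2.eq_swap]
    tauto
  · ext e
    simp only [tedges, Finset.mem_insert, Finset.mem_singleton]
    rw [show s(t.2.2, t.2.1) = s(t.2.1, t.2.2) from Sym2.eq_swap,
      show s(t.2.1, t.1) = s(t.1, t.2.1) from Sym2.eq_swap,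
      show s(t.2.2, t.1) = s(t.1, t.2.2) from Sym2.eq_swap]
    tauto
  · rfl

theorem zero_reo {n : ℕ} {x : Inst n} (hx : Valid x) (H : Finset (Fin n))
    {t : Fin n × Fin n × Fin n} (h : Zero x t.1 t.2.1 t.2.2) :
    Zero x (reo H t).1 (reo H t).2.1 (reo H t).2.2 := by
  unfold reo
  split_ifs
  · exact zero_swap12 hx h
  · exact zero_swap13 hx h
  · exact h

theorem packing {n : ℕ} (x : Inst n) (hx : Valid x) (m p : ℕ) (hF : Far m x) (hp : 3 * p < m + 3)
    (D : ℝ) (hD0 : 0 ≤ D) (hD : 9 * (p : ℝ) ≤ D ^ 2) :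
    ∃ P : Finset (Fin n × Fin n × Fin n), (∀ t ∈ P, Zero x t.1 t.2.1 t.2.2) ∧
      (∀ t ∈ P, ∀ t' ∈ P, t.1 = t'.1 → t.2.1 = t'.2.1 → t = t') ∧
      (∀ t ∈ P, ∀ t' ∈ P, t.1 = t'.1 → t.2.2 = t'.2.2 → t = t') ∧
      (∀ t ∈ P, ∀ t' ∈ P, t.2.1 = t'.2.1 → t.2.2 = t'.2.2 → t = t') ∧
      p ≤ 2 * P.card ∧ P.card ≤ p ∧
      (∀ v, ((P.filter fun t => t.2.1 = v).card : ℝ) ≤ D) ∧
      (∀ v, ((P.filter fun t => t.2.2 = v).card : ℝ) ≤ D) := by
  classical
  rcases Nat.eq_zero_or_pos p with hp0 | hp0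
  · subst hp0
    exact ⟨∅, by simp, by simp, by simp, by simp, by simp, by simp, fun v => by simpa using hD0,
      fun v => by simpa using hD0⟩
  obtain ⟨T, hTc, hTz, hTd⟩ := pack1 x m p hF hp
  -- vertices
  let V : Fin n × Fin n × Fin n → Finset (Fin n) := fun t => {t.1, t.2.1, t.2.2}
  have hV3 : ∀ t, (V t).card ≤ 3 := fun t => Finset.card_le_three
  let dg : Fin n → ℕ := fun v => (T.filter fun t => v ∈ V t).card
  have hsum : ∑ v, dg v ≤ 3 * p := by
    have h1 := Finset.sum_card_bipartiteAbove_eq_sum_card_bipartiteBelow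
      (s := (univ : Finset (Fin n))) (t := T) (fun (v : Fin n) (t : Fin n × Fin n × Fin n) => v ∈ V t)
    calc ∑ v, dg v = ∑ v : Fin n, (T.bipartiteAbove (fun v t => v ∈ V t) v).card := rfl
      _ = ∑ t ∈ T, ((univ : Finset (Fin n)).bipartiteBelow (fun v t => v ∈ V t) t).card := h1
      _ ≤ ∑ t ∈ T, 3 := by
          apply Finset.sum_le_sum
          intro t _
          refine le_trans (Finset.card_le_card ?_) (hV3 t)
          intro v hv
          simpa [Finset.bipartiteBelow] using hv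
      _ = 3 * p := by rw [Finset.sum_const, hTc, smul_eq_mul, mul_comm]
  let H : Finset (Fin n) := univ.filter fun v => D < dg v
  have hHmem : ∀ v, v ∈ H ↔ D < dg v := fun v => by simp [H]
  have hHD : (H.card : ℝ) * D ≤ 3 * p := by
    calc (H.card : ℝ) * D = ∑ v ∈ H, D := by rw [Finset.sum_const, nsmul_eq_mul]
      _ ≤ ∑ v ∈ H, (dg v : ℝ) := Finset.sum_le_sum fun v hv => ((hHmem v).1 hv).le
      _ ≤ ∑ v, (dg v : ℝ) := Finset.sum_le_univ_sum_of_nonneg fun v => by positivity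
      _ = ((∑ v, dg v : ℕ) : ℝ) := by push_cast; rfl
      _ ≤ 3 * p := by exact_mod_cast hsum
  have hpR : (1 : ℝ) ≤ p := by exact_mod_cast hp0
  have hH2 : H.card * H.card ≤ p := by
    have h1 : ((H.card : ℝ) * D) ^ 2 ≤ (3 * p) ^ 2 := pow_le_pow_left₀ (by positivity) hHD 2
    have h2 : ((H.card : ℝ)) ^ 2 * (9 * p) ≤ (H.card : ℝ) ^ 2 * D ^ 2 :=
      mul_le_mul_of_nonneg_left hD (by positivity)
    have h3 : (H.card : ℝ) * H.card ≤ p := by
      have h4 : ((H.card : ℝ) * H.card) * (9 * p) ≤ p * (9 * p) := by nlinarith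
      exact le_of_mul_le_mul_right h4 (by linarith)
    exact_mod_cast h3
  -- the good triangles
  let ok : Fin n × Fin n × Fin n → Prop := fun t =>
    ¬ (t.1 ∈ H ∧ t.2.1 ∈ H) ∧ ¬ (t.2.1 ∈ H ∧ t.2.2 ∈ H) ∧ ¬ (t.1 ∈ H ∧ t.2.2 ∈ H)
  let T' := T.filter ok
  let T2 := T.filter fun t => ¬ ok t
  have hcard : T'.card + T2.card = p := by
    rw [← hTc]
    exact Finset.card_filter_add_card_filter_not ok
  let EH : Finset (Sym2 (Fin n)) := H.offDiag.image (fun q => s(q.1, q.2))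
  have hEH : EH.card = H.card.choose 2 := Sym2.card_image_offDiag H
  have hex : ∀ t ∈ T2, ∃ e ∈ EH, e ∈ tedges t := by
    intro t ht
    obtain ⟨htT, hno⟩ := Finset.mem_filter.1 ht
    obtain ⟨z1, z2, z3, -⟩ := hTz t htT
    have hin : ∀ a b : Fin n, a ∈ H → b ∈ H → a ≠ b → s(a, b) ∈ EH := by
      intro a b ha hb hab
      exact Finset.mem_image.2 ⟨(a, b), Finset.mem_offDiag.2 ⟨ha, hb, hab⟩, rfl⟩
    by_cases h1 : t.1 ∈ H ∧ t.2.1 ∈ H
    · exact ⟨_, hin _ _ h1.1 h1.2 z1, by simp [tedges]⟩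
    · by_cases h2 : t.2.1 ∈ H ∧ t.2.2 ∈ H
      · exact ⟨_, hin _ _ h2.1 h2.2 z2, by simp [tedges]⟩
      · by_cases h3 : t.1 ∈ H ∧ t.2.2 ∈ H
        · exact ⟨_, hin _ _ h3.1 h3.2 z3, by simp [tedges]⟩
        · exact absurd ⟨h1, h2, h3⟩ hno
  have hT2 : T2.card ≤ EH.card := by
    obtain ⟨f, hf1, hf2⟩ : ∃ f : Fin n × Fin n × Fin n → Sym2 (Fin n),
        (∀ t ∈ T2, f t ∈ EH) ∧ ∀ t ∈ T2, f t ∈ tedges t := by
      refine ⟨fun t => if h : t ∈ T2 then (hex t h).choose else s(t.1, t.1), ?_, ?_⟩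
      · intro t ht
        simp only [dif_pos ht]
        exact (hex t ht).choose_spec.1
      · intro t ht
        simp only [dif_pos ht]
        exact (hex t ht).choose_spec.2
    refine Finset.card_le_card_of_injOn f (fun t ht => hf1 t ht) ?_
    intro t ht t' ht' hff
    by_contra hne
    have h1 := hTd t (Finset.mem_filter.1 ht).1 t' (Finset.mem_filter.1 ht').1 hne
    have h2 := hf2 t ht
    have h3 := hf2 t' ht'
    rw [← hff] at h3
    exact Finset.disjoint_left.1 h1 h2 h3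
  have hT22 : 2 * T2.card ≤ p := by
    have h1 : H.card.choose 2 * 2 ≤ H.card * H.card := by
      rw [Nat.choose_two_right]
      have h2 : H.card * (H.card - 1) / 2 * 2 ≤ H.card * (H.card - 1) := Nat.div_mul_le_self _ _
      exact h2.trans (Nat.mul_le_mul_left _ (Nat.sub_le _ _))
    omega
  -- two elements of the image which share an edge are equal
  have hne : ∀ t : Fin n × Fin n × Fin n, (tedges t).Nonempty := fun t => ⟨s(t.1, t.2.1), by
    simp [tedges]⟩
  have hkey : ∀ t ∈ T', ∀ t' ∈ T', ∀ e, e ∈ tedges (reo H t) → e ∈ tedges (reo H t') →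
      t = t' := by
    intro t ht t' ht' e he he'
    by_contra hn
    rw [tedges_reo] at he he'
    exact Finset.disjoint_left.1 (hTd t (Finset.mem_filter.1 ht).1 t'
      (Finset.mem_filter.1 ht').1 hn) he he'
  have hinj : Set.InjOn (reo H) (T' : Set (Fin n × Fin n × Fin n)) := by
    intro t ht t' ht' h
    obtain ⟨e, he⟩ := hne (reo H t)
    exact hkey t ht t' ht' e he (h ▸ he)
  have hP : ∀ q ∈ T'.image (reo H), ∃ t ∈ T', reo H t = q := fun q hq => Finset.mem_image.1 hq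
  have h21 : ∀ t ∈ T', (reo H t).2.1 ∉ H ∧ (reo H t).2.2 ∉ H := by
    intro t ht
    obtain ⟨-, k1, k2, k3⟩ := Finset.mem_filter.1 ht
    unfold reo
    split_ifs with g1 g2
    · exact ⟨fun h => k1 ⟨h, g1⟩, fun h => k2 ⟨g1, h⟩⟩
    · exact ⟨g1, fun h => k3 ⟨h, g2⟩⟩
    · exact ⟨g1, g2⟩
  have hVr : ∀ t, V (reo H t) ⊆ V t := by
    intro t v hv
    simp only [V, Finset.mem_insert, Finset.mem_singleton] at hv ⊢
    unfold reo at hv
    split_ifs at hv <;> tauto
  have hdeg : ∀ (g : Fin n × Fin n × Fin n → Fin n), (∀ t, g t ∈ V t) →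
      (∀ t ∈ T', g (reo H t) ∉ H) → ∀ v,
      (((T'.image (reo H)).filter fun t => g t = v).card : ℝ) ≤ D := by
    intro g hg1 hg2 v
    by_cases hv : v ∈ H
    · have : (T'.image (reo H)).filter (fun t => g t = v) = ∅ := by
        apply Finset.filter_eq_empty_iff.2
        intro q hq hqv
        obtain ⟨t, ht, rfl⟩ := hP q hq
        exact hg2 t ht (hqv ▸ hv)
      rw [this]
      simpa using hD0
    · have h1 : ((T'.image (reo H)).filter fun t => g t = v).card ≤ dg v := by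
        have h2 : (T'.image (reo H)).filter (fun t => g t = v) ⊆
            (T.filter fun t => v ∈ V t).image (reo H) := by
          intro q hq
          obtain ⟨hq1, hq2⟩ := Finset.mem_filter.1 hq
          obtain ⟨t, ht, rfl⟩ := hP q hq1
          refine Finset.mem_image.2 ⟨t, Finset.mem_filter.2 ⟨(Finset.mem_filter.1 ht).1, ?_⟩, rfl⟩
          rw [← hq2]
          exact hVr t (hg1 _)
        exact (Finset.card_le_card h2).trans Finset.card_image_le
      have h3 : (dg v : ℝ) ≤ D := not_lt.1 fun h => hv ((hHmem v).2 h)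
      exact le_trans (by exact_mod_cast h1) h3
  refine ⟨T'.image (reo H), ?_, ?_, ?_, ?_, ?_, ?_, ?_, ?_⟩
  · intro q hq
    obtain ⟨t, ht, rfl⟩ := hP q hq
    exact zero_reo hx H (hTz t (Finset.mem_filter.1 ht).1)
  · intro q hq q' hq' e1 e2
    obtain ⟨t, ht, rfl⟩ := hP q hq
    obtain ⟨t', ht', rfl⟩ := hP q' hq'
    rw [hkey t ht t' ht' s((reo H t).1, (reo H t).2.1) (by simp [tedges])
      (by rw [e1, e2]; simp [tedges])]
  · intro q hq q' hq' e1 e2
    obtain ⟨t, ht, rfl⟩ := hP q hq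
    obtain ⟨t', ht', rfl⟩ := hP q' hq'
    rw [hkey t ht t' ht' s((reo H t).1, (reo H t).2.2) (by simp [tedges])
      (by rw [e1, e2]; simp [tedges])]
  · intro q hq q' hq' e1 e2
    obtain ⟨t, ht, rfl⟩ := hP q hq
    obtain ⟨t', ht', rfl⟩ := hP q' hq'
    rw [hkey t ht t' ht' s((reo H t).2.1, (reo H t).2.2) (by simp [tedges])
      (by rw [e1, e2]; simp [tedges])]
  · rw [Finset.card_image_of_injOn hinj]
    omega
  · rw [Finset.card_image_of_injOn hinj]
    omega
  · exact hdeg (fun t => t.2.1) (fun t => by simp [V]) (fun t ht => (h21 t ht).1)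
  · exact hdeg (fun t => t.2.2) (fun t => by simp [V]) (fun t ht => (h21 t ht).2)

end ETFar
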