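import Pool.Agent.H29.ET.AVG

/-! Part SEC (helper91): the second moment bound. -/

set_option autoImplicit false

open Finset

namespace ETFar

theorem sec_nonneg {s n : ℕ} (σ : Fin s → Fin n) (x : Fin n) : 0 ≤ secC σ x := by
  unfold secC
  exact Finset.sum_nonneg fun a _ => by split_ifs <;> norm_num

theorem sec_zero {s n : ℕ} (σ : Fin s → Fin n) (x : Fin n) (h : secC σ x ≠ 0) :
    ∃ a, σ a = x := by
  by_contra hcon
  push Not at hcon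
  apply h
  unfold secC
  exact Finset.sum_eq_zero fun a _ => if_neg (hcon a)

theorem sec_sum3 {A B C : Type} [Fintype A] [Fintype B] [Fintype C] (f : A → ℝ) (g : B → ℝ)
    (k : C → ℝ) : ∑ σ : A × B × C, f σ.1 * g σ.2.1 * k σ.2.2 = (∑ a, f a) * (∑ b, g b) * ∑ c, k c := by
  rw [Fintype.sum_prod_type]
  simp only [Fintype.sum_prod_type]
  rw [Finset.sum_mul_sum, Finset.sum_mul]
  refine Finset.sum_congr rfl fun a _ => ?_
  rw [Finset.sum_mul_sum]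

theorem sec_cheb {Ω : Type} [Fintype Ω] (X : Ω → ℝ) (μ V : ℝ) (Z : Finset Ω)
    (hZ : ∀ σ ∈ Z, X σ = 0) (h1 : ∑ σ, X σ = Fintype.card Ω * μ)
    (h2 : ∑ σ, X σ ^ 2 ≤ Fintype.card Ω * (μ ^ 2 * (1 + V))) (hμ : 0 < μ) :
    (Z.card : ℝ) ≤ V * Fintype.card Ω := by
  have h3 : (Z.card : ℝ) * μ ^ 2 ≤ ∑ σ, (X σ - μ) ^ 2 := by
    calc (Z.card : ℝ) * μ ^ 2 = ∑ σ ∈ Z, (X σ - μ) ^ 2 := by
          rw [Finset.sum_congr rfl (g := fun _ => μ ^ 2)]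
          · rw [Finset.sum_const, nsmul_eq_mul]
          · intro σ hσ; rw [hZ σ hσ]; ring
      _ ≤ _ := Finset.sum_le_sum_of_subset_of_nonneg (Finset.subset_univ _)
          fun σ _ _ => sq_nonneg _
  have h4 : ∑ σ, (X σ - μ) ^ 2 = ∑ σ, X σ ^ 2 - 2 * μ * ∑ σ, X σ + Fintype.card Ω * μ ^ 2 := by
    have : ∀ σ, (X σ - μ) ^ 2 = X σ ^ 2 - 2 * μ * X σ + μ ^ 2 := fun σ => by ring
    simp only [this, Finset.sum_add_distrib, Finset.sum_sub_distrib, ← Finset.mul_sum,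
      Finset.sum_const, Finset.card_univ, nsmul_eq_mul]
  rw [h4, h1] at h3
  have h5 : (Z.card : ℝ) * μ ^ 2 ≤ V * Fintype.card Ω * μ ^ 2 := by nlinarith
  exact le_of_mul_le_mul_right h5 (by positivity)

theorem second (n s₁ s₂ s₃ : ℕ) (h₁ : 1 ≤ s₁) (h₂ : 1 ≤ s₂) (h₃ : 1 ≤ s₃) (hn : 1 ≤ n)
    (P : Finset (Fin n × Fin n × Fin n)) (hP : 1 ≤ P.card) (D₁ D₂ D₃ : ℝ)
    (c12 : ∀ t ∈ P, ∀ t' ∈ P, t.1 = t'.1 → t.2.1 = t'.2.1 → t = t')
    (c13 : ∀ t ∈ P, ∀ t' ∈ P, t.1 = t'.1 → t.2.2 = t'.2.2 → t = t')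
    (c23 : ∀ t ∈ P, ∀ t' ∈ P, t.2.1 = t'.2.1 → t.2.2 = t'.2.2 → t = t')
    (d₁ : ∀ v, ((P.filter fun t => t.1 = v).card : ℝ) ≤ D₁)
    (d₂ : ∀ v, ((P.filter fun t => t.2.1 = v).card : ℝ) ≤ D₂)
    (d₃ : ∀ v, ((P.filter fun t => t.2.2 = v).card : ℝ) ≤ D₃) :
    ((univ.filter fun σ : (Fin s₁ → Fin n) × (Fin s₂ → Fin n) × (Fin s₃ → Fin n) =>
        ¬ ∃ a b c, (σ.1 a, σ.2.1 b, σ.2.2 c) ∈ P).card : ℝ) ≤
      (n * D₁ / (s₁ * P.card) + n * D₂ / (s₂ * P.card) + n * D₃ / (s₃ * P.card) +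
        n ^ 2 / (s₁ * s₂ * P.card) + n ^ 2 / (s₁ * s₃ * P.card) + n ^ 2 / (s₂ * s₃ * P.card) +
        n ^ 3 / (s₁ * s₂ * s₃ * P.card)) * (n : ℝ) ^ (s₁ + s₂ + s₃) := by
  classical
  have hn0 : (0 : ℝ) < n := by exact_mod_cast hn
  have hs1 : (0 : ℝ) < s₁ := by exact_mod_cast h₁
  have hs2 : (0 : ℝ) < s₂ := by exact_mod_cast h₂
  have hs3 : (0 : ℝ) < s₃ := by exact_mod_cast h₃
  have hp0 : (0 : ℝ) < P.card := by exact_mod_cast hP
  set p : ℝ := (P.card : ℝ) with hp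
  have hcard : (Fintype.card ((Fin s₁ → Fin n) × (Fin s₂ → Fin n) × (Fin s₃ → Fin n)) : ℝ) =
      (n : ℝ) ^ (s₁ + s₂ + s₃) := by
    simp only [Fintype.card_prod, Fintype.card_fun, Fintype.card_fin]
    push_cast
    rw [pow_add, pow_add]; ring
  -- the random variable
  let X : (Fin s₁ → Fin n) × (Fin s₂ → Fin n) × (Fin s₃ → Fin n) → ℝ := fun σ =>
    ∑ t ∈ P, secC σ.1 t.1 * secC σ.2.1 t.2.1 * secC σ.2.2 t.2.2
  set μ : ℝ := s₁ * s₂ * s₃ * p / n ^ 3 with hμ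
  have hμ0 : 0 < μ := by positivity
  have hX1 : ∑ σ, X σ = (n : ℝ) ^ (s₁ + s₂ + s₃) * μ := by
    show ∑ σ : (Fin s₁ → Fin n) × (Fin s₂ → Fin n) × (Fin s₃ → Fin n),
      ∑ t ∈ P, secC σ.1 t.1 * secC σ.2.1 t.2.1 * secC σ.2.2 t.2.2 = _
    rw [Finset.sum_comm]
    have : ∀ t ∈ P, ∑ σ : (Fin s₁ → Fin n) × (Fin s₂ → Fin n) × (Fin s₃ → Fin n),
        secC σ.1 t.1 * secC σ.2.1 t.2.1 * secC σ.2.2 t.2.2 =
        (n : ℝ) ^ (s₁ + s₂ + s₃) * (s₁ * s₂ * s₃ / n ^ 3) := by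
      intro t _
      rw [sec_sum3 (fun σ : Fin s₁ → Fin n => secC σ t.1) (fun σ : Fin s₂ → Fin n => secC σ t.2.1)
        (fun σ : Fin s₃ → Fin n => secC σ t.2.2), secC_sum hn, secC_sum hn, secC_sum hn,
        pow_add, pow_add]
      field_simp
    rw [Finset.sum_congr rfl this, Finset.sum_const, nsmul_eq_mul, hμ, ← hp]
    ring
  -- second moment
  set e1 : Fin n × Fin n × Fin n → Fin n × Fin n × Fin n → ℝ :=
    fun t t' => if t.1 = t'.1 then 1 else 0 with he1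
  set e2 : Fin n × Fin n × Fin n → Fin n × Fin n × Fin n → ℝ :=
    fun t t' => if t.2.1 = t'.2.1 then 1 else 0 with he2
  set e3 : Fin n × Fin n × Fin n → Fin n × Fin n × Fin n → ℝ :=
    fun t t' => if t.2.2 = t'.2.2 then 1 else 0 with he3
  have he1n : ∀ t t', 0 ≤ e1 t t' := fun t t' => by simp only [he1]; split_ifs <;> norm_num
  have he2n : ∀ t t', 0 ≤ e2 t t' := fun t t' => by simp only [he2]; split_ifs <;> norm_num
  have he3n : ∀ t t', 0 ≤ e3 t t' := fun t t' => by simp only [he3]; split_ifs <;> norm_num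
  set α₁ : ℝ := (s₁ : ℝ) ^ 2 / (n : ℝ) ^ 2 with hα1
  set α₂ : ℝ := (s₂ : ℝ) ^ 2 / (n : ℝ) ^ 2 with hα2
  set α₃ : ℝ := (s₃ : ℝ) ^ 2 / (n : ℝ) ^ 2 with hα3
  set β₁ : ℝ := (s₁ : ℝ) / n with hβ1
  set β₂ : ℝ := (s₂ : ℝ) / n with hβ2
  set β₃ : ℝ := (s₃ : ℝ) / n with hβ3
  have a1 : 0 < α₁ := by positivity
  have a2 : 0 < α₂ := by positivity
  have a3 : 0 < α₃ := by positivity
  have b1 : 0 < β₁ := by positivity
  have b2 : 0 < β₂ := by positivity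
  have b3 : 0 < β₃ := by positivity
  have hX2 : ∑ σ, X σ ^ 2 ≤ ∑ t ∈ P, ∑ t' ∈ P, (n : ℝ) ^ (s₁ + s₂ + s₃) *
      ((α₁ + e1 t t' * β₁) * (α₂ + e2 t t' * β₂) * (α₃ + e3 t t' * β₃)) := by
    have h1 : ∀ σ, X σ ^ 2 = ∑ t ∈ P, ∑ t' ∈ P,
        (secC σ.1 t.1 * secC σ.1 t'.1) * (secC σ.2.1 t.2.1 * secC σ.2.1 t'.2.1) *
          (secC σ.2.2 t.2.2 * secC σ.2.2 t'.2.2) := by
      intro σ
      show (∑ t ∈ P, secC σ.1 t.1 * secC σ.2.1 t.2.1 * secC σ.2.2 t.2.2) ^ 2 = _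
      rw [sq, Finset.sum_mul_sum]
      refine Finset.sum_congr rfl fun t _ => Finset.sum_congr rfl fun t' _ => ?_
      ring
    simp only [h1]
    rw [Finset.sum_comm]
    refine Finset.sum_le_sum fun t _ => ?_
    rw [Finset.sum_comm]
    refine Finset.sum_le_sum fun t' _ => ?_
    rw [sec_sum3 (fun σ : Fin s₁ → Fin n => secC σ t.1 * secC σ t'.1)
      (fun σ : Fin s₂ → Fin n => secC σ t.2.1 * secC σ t'.2.1)
      (fun σ : Fin s₃ → Fin n => secC σ t.2.2 * secC σ t'.2.2)]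
    have k1 := secC_mul (s := s₁) hn t.1 t'.1
    have k2 := secC_mul (s := s₂) hn t.2.1 t'.2.1
    have k3 := secC_mul (s := s₃) hn t.2.2 t'.2.2
    have n1 : 0 ≤ ∑ σ : Fin s₁ → Fin n, secC σ t.1 * secC σ t'.1 :=
      Finset.sum_nonneg fun σ _ => mul_nonneg (sec_nonneg _ _) (sec_nonneg _ _)
    have n2 : 0 ≤ ∑ σ : Fin s₂ → Fin n, secC σ t.2.1 * secC σ t'.2.1 :=
      Finset.sum_nonneg fun σ _ => mul_nonneg (sec_nonneg _ _) (sec_nonneg _ _)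
    have n3 : 0 ≤ ∑ σ : Fin s₃ → Fin n, secC σ t.2.2 * secC σ t'.2.2 :=
      Finset.sum_nonneg fun σ _ => mul_nonneg (sec_nonneg _ _) (sec_nonneg _ _)
    calc _ ≤ ((n : ℝ) ^ s₁ * (α₁ + e1 t t' * β₁)) * ((n : ℝ) ^ s₂ * (α₂ + e2 t t' * β₂)) *
          ((n : ℝ) ^ s₃ * (α₃ + e3 t t' * β₃)) := by
          refine mul_le_mul (mul_le_mul k1 k2 n2 (n1.trans k1)) k3 n3 ?_
          exact mul_nonneg (n1.trans k1) (n2.trans k2)
      _ = _ := by rw [pow_add, pow_add]; ring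
  -- counting
  have hE1 : ∑ t ∈ P, ∑ t' ∈ P, e1 t t' ≤ p * D₁ := by
    calc ∑ t ∈ P, ∑ t' ∈ P, e1 t t' ≤ ∑ t ∈ P, D₁ := by
          refine Finset.sum_le_sum fun t _ => ?_
          have : ∑ t' ∈ P, e1 t t' = ((P.filter fun t' => t'.1 = t.1).card : ℝ) := by
            rw [Finset.card_filter]
            push_cast
            refine Finset.sum_congr rfl fun t' _ => ?_
            simp only [he1, eq_comm]
          rw [this]; exact d₁ _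
      _ = p * D₁ := by rw [Finset.sum_const, nsmul_eq_mul]
  have hE2 : ∑ t ∈ P, ∑ t' ∈ P, e2 t t' ≤ p * D₂ := by
    calc ∑ t ∈ P, ∑ t' ∈ P, e2 t t' ≤ ∑ t ∈ P, D₂ := by
          refine Finset.sum_le_sum fun t _ => ?_
          have : ∑ t' ∈ P, e2 t t' = ((P.filter fun t' => t'.2.1 = t.2.1).card : ℝ) := by
            rw [Finset.card_filter]
            push_cast
            refine Finset.sum_congr rfl fun t' _ => ?_
            simp only [he2, eq_comm]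
          rw [this]; exact d₂ _
      _ = p * D₂ := by rw [Finset.sum_const, nsmul_eq_mul]
  have hE3 : ∑ t ∈ P, ∑ t' ∈ P, e3 t t' ≤ p * D₃ := by
    calc ∑ t ∈ P, ∑ t' ∈ P, e3 t t' ≤ ∑ t ∈ P, D₃ := by
          refine Finset.sum_le_sum fun t _ => ?_
          have : ∑ t' ∈ P, e3 t t' = ((P.filter fun t' => t'.2.2 = t.2.2).card : ℝ) := by
            rw [Finset.card_filter]
            push_cast
            refine Finset.sum_congr rfl fun t' _ => ?_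
            simp only [he3, eq_comm]
          rw [this]; exact d₃ _
      _ = p * D₃ := by rw [Finset.sum_const, nsmul_eq_mul]
  have hpt : ∀ t ∈ P, ∀ t' ∈ P,
      (α₁ + e1 t t' * β₁) * (α₂ + e2 t t' * β₂) * (α₃ + e3 t t' * β₃) ≤
      α₁ * α₂ * α₃ + β₁ * α₂ * α₃ * e1 t t' + α₁ * β₂ * α₃ * e2 t t' + α₁ * α₂ * β₃ * e3 t t' +
        (β₁ * β₂ * α₃ + β₁ * α₂ * β₃ + α₁ * β₂ * β₃ + β₁ * β₂ * β₃) *
          (if t = t' then (1 : ℝ) else 0) := by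
    intro t ht t' ht'
    have q12 : e1 t t' * e2 t t' ≤ (if t = t' then (1 : ℝ) else 0) := by
      simp only [he1, he2]
      by_cases h : t.1 = t'.1
      · by_cases h' : t.2.1 = t'.2.1
        · rw [if_pos (c12 t ht t' ht' h h')]; simp [h, h']
        · simp only [if_neg h', mul_zero]; split_ifs <;> norm_num
      · simp only [if_neg h, zero_mul]; split_ifs <;> norm_num
    have q13 : e1 t t' * e3 t t' ≤ (if t = t' then (1 : ℝ) else 0) := by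
      simp only [he1, he3]
      by_cases h : t.1 = t'.1
      · by_cases h' : t.2.2 = t'.2.2
        · rw [if_pos (c13 t ht t' ht' h h')]; simp [h, h']
        · simp only [if_neg h', mul_zero]; split_ifs <;> norm_num
      · simp only [if_neg h, zero_mul]; split_ifs <;> norm_num
    have q23 : e2 t t' * e3 t t' ≤ (if t = t' then (1 : ℝ) else 0) := by
      simp only [he2, he3]
      by_cases h : t.2.1 = t'.2.1
      · by_cases h' : t.2.2 = t'.2.2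
        · rw [if_pos (c23 t ht t' ht' h h')]; simp [h, h']
        · simp only [if_neg h', mul_zero]; split_ifs <;> norm_num
      · simp only [if_neg h, zero_mul]; split_ifs <;> norm_num
    have u3 : e3 t t' ≤ 1 := by simp only [he3]; split_ifs <;> norm_num
    have q123 : e1 t t' * e2 t t' * e3 t t' ≤ (if t = t' then (1 : ℝ) else 0) := by
      calc e1 t t' * e2 t t' * e3 t t' ≤ e1 t t' * e2 t t' * 1 :=
            mul_le_mul_of_nonneg_left u3 (mul_nonneg (he1n _ _) (he2n _ _))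
        _ ≤ _ := by rw [mul_one]; exact q12
    have m1 := mul_le_mul_of_nonneg_left q12 (by positivity : 0 ≤ β₁ * β₂ * α₃)
    have m2 := mul_le_mul_of_nonneg_left q13 (by positivity : 0 ≤ β₁ * α₂ * β₃)
    have m3 := mul_le_mul_of_nonneg_left q23 (by positivity : 0 ≤ α₁ * β₂ * β₃)
    have m4 := mul_le_mul_of_nonneg_left q123 (by positivity : 0 ≤ β₁ * β₂ * β₃)
    have expand : (α₁ + e1 t t' * β₁) * (α₂ + e2 t t' * β₂) * (α₃ + e3 t t' * β₃) =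
      α₁ * α₂ * α₃ + β₁ * α₂ * α₃ * e1 t t' + α₁ * β₂ * α₃ * e2 t t' + α₁ * α₂ * β₃ * e3 t t' +
      β₁ * β₂ * α₃ * (e1 t t' * e2 t t') + β₁ * α₂ * β₃ * (e1 t t' * e3 t t') +
      α₁ * β₂ * β₃ * (e2 t t' * e3 t t') + β₁ * β₂ * β₃ * (e1 t t' * e2 t t' * e3 t t') := by ring
    rw [expand]
    linarith
  have hsum : ∑ t ∈ P, ∑ t' ∈ P,
      ((α₁ + e1 t t' * β₁) * (α₂ + e2 t t' * β₂) * (α₃ + e3 t t' * β₃)) ≤
      α₁ * α₂ * α₃ * p ^ 2 + β₁ * α₂ * α₃ * (p * D₁) + α₁ * β₂ * α₃ * (p * D₂) +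
        α₁ * α₂ * β₃ * (p * D₃) +
        (β₁ * β₂ * α₃ + β₁ * α₂ * β₃ + α₁ * β₂ * β₃ + β₁ * β₂ * β₃) * p := by
    have s1 : ∑ t ∈ P, ∑ t' ∈ P,
      ((α₁ + e1 t t' * β₁) * (α₂ + e2 t t' * β₂) * (α₃ + e3 t t' * β₃)) ≤
      ∑ t ∈ P, ∑ t' ∈ P, (α₁ * α₂ * α₃ + β₁ * α₂ * α₃ * e1 t t' + α₁ * β₂ * α₃ * e2 t t' +
        α₁ * α₂ * β₃ * e3 t t' +
        (β₁ * β₂ * α₃ + β₁ * α₂ * β₃ + α₁ * β₂ * β₃ + β₁ * β₂ * β₃) *
          (if t = t' then (1 : ℝ) else 0)) :=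
      Finset.sum_le_sum fun t ht => Finset.sum_le_sum fun t' ht' => hpt t ht t' ht'
    refine s1.trans ?_
    simp only [Finset.sum_add_distrib, ← Finset.mul_sum]
    have s2 : ∑ t ∈ P, ∑ t' ∈ P, (if t = t' then (1 : ℝ) else 0) = p := by
      have : ∀ t ∈ P, ∑ t' ∈ P, (if t = t' then (1 : ℝ) else 0) = 1 := by
        intro t ht
        rw [Finset.sum_ite_eq]; simp [ht]
      rw [Finset.sum_congr rfl this, Finset.sum_const, nsmul_eq_mul, mul_one]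
    have s3 : ∑ _t ∈ P, ∑ _t' ∈ P, α₃ = α₃ * p ^ 2 := by
      simp only [Finset.sum_const, nsmul_eq_mul]; ring
    rw [s2, s3]
    have t1 := mul_le_mul_of_nonneg_left hE1 (by positivity : 0 ≤ β₁ * α₂ * α₃)
    have t2 := mul_le_mul_of_nonneg_left hE2 (by positivity : 0 ≤ α₁ * β₂ * α₃)
    have t3 := mul_le_mul_of_nonneg_left hE3 (by positivity : 0 ≤ α₁ * α₂ * β₃)
    linarith
  set V : ℝ := n * D₁ / (s₁ * p) + n * D₂ / (s₂ * p) + n * D₃ / (s₃ * p) +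
        n ^ 2 / (s₁ * s₂ * p) + n ^ 2 / (s₁ * s₃ * p) + n ^ 2 / (s₂ * s₃ * p) +
        n ^ 3 / (s₁ * s₂ * s₃ * p) with hV
  have hfin : α₁ * α₂ * α₃ * p ^ 2 + β₁ * α₂ * α₃ * (p * D₁) + α₁ * β₂ * α₃ * (p * D₂) +
        α₁ * α₂ * β₃ * (p * D₃) +
        (β₁ * β₂ * α₃ + β₁ * α₂ * β₃ + α₁ * β₂ * β₃ + β₁ * β₂ * β₃) * p = μ ^ 2 * (1 + V) := by
    rw [hV, hμ, hα1, hα2, hα3, hβ1, hβ2, hβ3]
    field_simp
    ring
  have hX2' : ∑ σ, X σ ^ 2 ≤ (n : ℝ) ^ (s₁ + s₂ + s₃) * (μ ^ 2 * (1 + V)) := by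
    refine hX2.trans ?_
    simp only [← Finset.mul_sum]
    refine mul_le_mul_of_nonneg_left ?_ (by positivity)
    rw [← hfin]; exact hsum
  have := sec_cheb X μ V (univ.filter fun σ => ¬ ∃ a b c, (σ.1 a, σ.2.1 b, σ.2.2 c) ∈ P) ?_
    (by rw [hcard]; exact hX1) (by rw [hcard]; exact hX2') hμ0
  · rw [hcard] at this; exact this
  · intro σ hσ
    have hσ' := (Finset.mem_filter.mp hσ).2
    show ∑ t ∈ P, secC σ.1 t.1 * secC σ.2.1 t.2.1 * secC σ.2.2 t.2.2 = 0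
    refine Finset.sum_eq_zero fun t ht => ?_
    by_contra hne
    obtain ⟨hne1, hne3⟩ := mul_ne_zero_iff.mp hne
    obtain ⟨hne1, hne2⟩ := mul_ne_zero_iff.mp hne1
    obtain ⟨a, ha⟩ := sec_zero _ _ hne1
    obtain ⟨b, hb⟩ := sec_zero _ _ hne2
    obtain ⟨c, hc⟩ := sec_zero _ _ hne3
    exact hσ' ⟨a, b, c, by rw [ha, hb, hc]; exact ht⟩

end ETFar
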