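import Pool.Agent.H29.ET.Defs

open Finset

namespace ETFar

theorem ceil_le_127 (w : ℝ) (hw : 1 ≤ w) : 126 * w ≤ (⌈126 * w⌉₊ : ℝ) ∧
    (⌈126 * w⌉₊ : ℝ) ≤ 127 * w ∧ 1 ≤ ⌈126 * w⌉₊ := by
  refine ⟨Nat.le_ceil _, ?_, ?_⟩
  · have := (Nat.ceil_lt_add_one (show (0 : ℝ) ≤ 126 * w by linarith)).le
    linarith
  · exact Nat.ceil_pos.2 (by linarith)

theorem ceil_le_43 (w : ℝ) (hw : 1 ≤ w) : 42 * w ≤ (⌈42 * w⌉₊ : ℝ) ∧
    (⌈42 * w⌉₊ : ℝ) ≤ 43 * w ∧ 1 ≤ ⌈42 * w⌉₊ := by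
  refine ⟨Nat.le_ceil _, ?_, ?_⟩
  · have := (Nat.ceil_lt_add_one (show (0 : ℝ) ≤ 42 * w by linarith)).le
    linarith
  · exact Nat.ceil_pos.2 (by linarith)

theorem upper_num : ∃ C : ℝ, ∀ n m : ℕ, 1 ≤ m → m ≤ n ^ 2 → ∃ (p s₁ s : ℕ) (D : ℝ),
    1 ≤ s₁ ∧ 1 ≤ s ∧ 1 ≤ p ∧ 3 * p < m + 3 ∧ 0 ≤ D ∧ 9 * (p : ℝ) ≤ D ^ 2 ∧
    42 * (n * min (n : ℝ) p) ≤ s₁ * p ∧ 42 * (n * D) ≤ s * p ∧
    42 * (n : ℝ) ^ 2 ≤ s₁ * s * p ∧ 42 * (n : ℝ) ^ 2 ≤ s * s * p ∧
    42 * (n : ℝ) ^ 3 ≤ s₁ * s * s * p ∧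
    ((2 * (s₁ * s) + s * s : ℕ) : ℝ) ≤ C * bound n m := by
  refine ⟨200000, fun n m hm hmn => ?_⟩
  have hn : 1 ≤ n := by
    rcases Nat.eq_zero_or_pos n with h | h
    · subst h; simp at hmn; omega
    · exact h
  obtain ⟨p, hp1, hp3, hmp, hpm⟩ : ∃ p : ℕ, 1 ≤ p ∧ 3 * p < m + 3 ∧ m ≤ 3 * p ∧ p ≤ m :=
    ⟨(m + 2) / 3, by omega, by omega, by omega, by omega⟩
  have hpn2 : p ≤ n ^ 2 := hpm.trans hmn
  have hnR : (1 : ℝ) ≤ n := by exact_mod_cast hn
  have hpR : (1 : ℝ) ≤ p := by exact_mod_cast hp1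
  have hmR : (1 : ℝ) ≤ m := by exact_mod_cast hm
  have hmpR : (m : ℝ) ≤ 3 * p := by exact_mod_cast hmp
  have hpn2R : (p : ℝ) ≤ (n : ℝ) ^ 2 := by exact_mod_cast hpn2
  obtain ⟨t, ht1, htt, hmt, htdef⟩ : ∃ t : ℝ, 1 ≤ t ∧ t * t = p ∧ √(m : ℝ) ≤ 3 * t ∧ t = √(p : ℝ) := by
    refine ⟨√(p : ℝ), Real.one_le_sqrt.2 hpR, Real.mul_self_sqrt (by linarith), ?_, rfl⟩
    rw [Real.sqrt_le_left (by positivity)]
    have := Real.mul_self_sqrt (show (0 : ℝ) ≤ p by linarith)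
    nlinarith
  obtain ⟨r, hr1, hrr, hrdef⟩ : ∃ r : ℝ, 1 ≤ r ∧ r * r = n ∧ r = √(n : ℝ) :=
    ⟨√(n : ℝ), Real.one_le_sqrt.2 hnR, Real.mul_self_sqrt (by linarith), rfl⟩
  have hsm : 0 < √(m : ℝ) := Real.sqrt_pos.2 (by linarith)
  by_cases hA : p ≤ n
  · have hAR : (p : ℝ) ≤ n := by exact_mod_cast hA
    have htr : t ≤ r := by rw [htdef, hrdef]; exact Real.sqrt_le_sqrt hAR
    obtain ⟨w, hwdef⟩ : ∃ w : ℝ, w = n / t := ⟨_, rfl⟩
    have hwt : w * t = n := by rw [hwdef]; field_simp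
    have hw1 : 1 ≤ w := by
      rw [hwdef, le_div_iff₀ (by linarith)]
      nlinarith
    have hwn : w ≤ n := by nlinarith
    obtain ⟨c1, c2, c3⟩ := ceil_le_127 w hw1
    obtain ⟨s, hs⟩ : ∃ s : ℕ, s = ⌈126 * w⌉₊ := ⟨_, rfl⟩
    rw [← hs] at c1 c2 c3
    have hsR : (1 : ℝ) ≤ s := by exact_mod_cast c3
    have hst : 126 * (n : ℝ) ≤ s * t := by nlinarith
    have hsp : 126 * (n * t) ≤ (s : ℝ) * p := by
      rw [← htt]; nlinarith
    have hss : 126 * 126 * (n : ℝ) ^ 2 ≤ s * s * p := by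
      rw [← htt]
      have : (126 * (n : ℝ)) * (126 * n) ≤ (s * t) * (s * t) :=
        mul_le_mul hst hst (by positivity) (by positivity)
      nlinarith
    have hcn : ((42 * n : ℕ) : ℝ) = 42 * n := by push_cast; ring
    refine ⟨p, 42 * n, s, 3 * t, by omega, c3, hp1, hp3, by linarith, by nlinarith, ?_, by nlinarith,
      ?_, by nlinarith [sq_nonneg (n : ℝ)], ?_, ?_⟩
    · rw [hcn]
      have : min (n : ℝ) p ≤ p := min_le_right _ _
      nlinarith
    · rw [hcn]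
      have h1 : (n : ℝ) ≤ s * p := by nlinarith
      nlinarith
    · rw [hcn]
      have h1 : (n : ℝ) * (126 * 126 * (n : ℝ) ^ 2) ≤ n * (s * s * p) :=
        mul_le_mul_of_nonneg_left hss (by linarith)
      have h2 : 0 ≤ (n : ℝ) ^ 3 := by positivity
      nlinarith
    · have hb : (n : ℝ) ^ 2 / (3 * t) ≤ bound n m := by
        refine le_trans ?_ (le_max_right _ _)
        refine le_min ?_ ?_
        · exact div_le_div_of_nonneg_left (by positivity) hsm hmt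
        · rw [div_le_div_iff₀ (by positivity) (by positivity), ← hrdef]
          have h1 : (m : ℝ) ≤ r * (3 * t) := by nlinarith
          have h2 : 0 ≤ (n : ℝ) ^ 2 := by positivity
          calc (n : ℝ) ^ 2 * m ≤ (n : ℝ) ^ 2 * (r * (3 * t)) := mul_le_mul_of_nonneg_left h1 h2
            _ = _ := by ring
      have hb2 : (n : ℝ) ^ 2 / (3 * t) = n * w / 3 := by rw [hwdef]; field_simp
      rw [hb2] at hb
      push_cast
      have h1 : (s : ℝ) * s ≤ (127 * w) * (127 * w) := mul_le_mul c2 c2 (by linarith) (by linarith)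
      have h2 : w * w ≤ n * w := mul_le_mul_of_nonneg_right hwn (by linarith)
      have h3 : (n : ℝ) * s ≤ n * (127 * w) := mul_le_mul_of_nonneg_left c2 (by linarith)
      nlinarith
  · have hA' : (n : ℝ) ≤ p := by
      have : n ≤ p := by omega
      exact_mod_cast this
    by_cases hB : p ^ 2 ≤ n ^ 3
    · have hBR : (p : ℝ) ^ 2 ≤ (n : ℝ) ^ 3 := by exact_mod_cast hB
      have hrt : r ≤ t := by rw [htdef, hrdef]; exact Real.sqrt_le_sqrt hA'
      have hpr : (p : ℝ) ≤ n * r := by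
        have h1 : (p : ℝ) ^ 2 ≤ (n * r) ^ 2 := by
          calc (p : ℝ) ^ 2 ≤ (n : ℝ) ^ 3 := hBR
            _ = (n * r) ^ 2 := by rw [mul_pow, pow_two r, hrr]; ring
        exact (pow_le_pow_iff_left₀ (by linarith) (by positivity) two_ne_zero).1 h1
      obtain ⟨w, hwdef⟩ : ∃ w : ℝ, w = (n : ℝ) ^ 2 / p := ⟨_, rfl⟩
      have hwp : w * p = (n : ℝ) ^ 2 := by rw [hwdef]; field_simp
      have hw1 : 1 ≤ w := by
        rw [hwdef, le_div_iff₀ (by linarith)]
        linarith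
      obtain ⟨c1, c2, c3⟩ := ceil_le_127 r hr1
      obtain ⟨d1, d2, d3⟩ := ceil_le_43 w hw1
      obtain ⟨s, hs⟩ : ∃ s : ℕ, s = ⌈126 * r⌉₊ := ⟨_, rfl⟩
      obtain ⟨s₁, hs₁⟩ : ∃ s₁ : ℕ, s₁ = ⌈42 * w⌉₊ := ⟨_, rfl⟩
      rw [← hs] at c1 c2 c3
      rw [← hs₁] at d1 d2 d3
      have hsR : (1 : ℝ) ≤ s := by exact_mod_cast c3
      have hs1R : (1 : ℝ) ≤ s₁ := by exact_mod_cast d3
      have hs1p : 42 * (n : ℝ) ^ 2 ≤ s₁ * p := by nlinarith
      have hss : 126 * 126 * (n : ℝ) ≤ s * s := by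
        have : (126 * r) * (126 * r) ≤ (s : ℝ) * s := mul_le_mul c1 c1 (by positivity) (by linarith)
        nlinarith
      have hD : (n : ℝ) * (3 * p / r) = 3 * (p * r) := by
        rw [← hrr]; field_simp
      refine ⟨p, s₁, s, 3 * p / r, d3, c3, hp1, hp3, by positivity, ?_, ?_, ?_, ?_, ?_, ?_, ?_⟩
      · rw [div_pow, le_div_iff₀ (by positivity), pow_two r, hrr]
        nlinarith
      · have : min (n : ℝ) p ≤ n := min_le_left _ _
        nlinarith
      · rw [hD]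
        nlinarith
      · have h1 : (s₁ : ℝ) * p * 1 ≤ s₁ * p * s := mul_le_mul_of_nonneg_left hsR (by positivity)
        nlinarith
      · have h1 : 126 * 126 * (n : ℝ) * n ≤ s * s * p :=
          mul_le_mul hss hA' (by linarith) (by positivity)
        nlinarith
      · have h1 : 42 * (n : ℝ) ^ 2 * (126 * 126 * (n : ℝ)) ≤ (s₁ * p) * (s * s) :=
          mul_le_mul hs1p hss (by positivity) (by positivity)
        have h2 : 0 ≤ (n : ℝ) ^ 3 := by positivity
        nlinarith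
      · have hb : (n : ℝ) ^ 2 * r / (3 * p) ≤ bound n m := by
          refine le_trans ?_ (le_max_right _ _)
          refine le_min ?_ ?_
          · rw [div_le_div_iff₀ (by positivity) hsm]
            have h1 : r * √(m : ℝ) ≤ t * (3 * t) :=
              mul_le_mul hrt hmt hsm.le (by linarith)
            have h2 : r * √(m : ℝ) ≤ 3 * p := by nlinarith
            calc (n : ℝ) ^ 2 * r * √(m : ℝ) = (n : ℝ) ^ 2 * (r * √(m : ℝ)) := by ring
              _ ≤ (n : ℝ) ^ 2 * (3 * p) := mul_le_mul_of_nonneg_left h2 (by positivity)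
          · rw [← hrdef]
            exact div_le_div_of_nonneg_left (by positivity) (by linarith) hmpR
        have hb2 : (n : ℝ) ^ 2 * r / (3 * p) = w * r / 3 := by rw [hwdef]; field_simp
        rw [hb2] at hb
        push_cast
        have h1 : (s : ℝ) * s ≤ (127 * r) * (127 * r) :=
          mul_le_mul c2 c2 (by linarith) (by linarith)
        have h2 : (s₁ : ℝ) * s ≤ (43 * w) * (127 * r) :=
          mul_le_mul d2 c2 (by linarith) (by linarith)
        have h3 : r * r ≤ w * r := by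
          have h4 : (n : ℝ) ≤ w * r := by
            rw [hwdef, div_mul_eq_mul_div, le_div_iff₀ (by linarith)]
            nlinarith
          rw [hrr]; exact h4
        nlinarith
    · have hBR : (n : ℝ) ^ 3 ≤ (p : ℝ) ^ 2 := by
        have : n ^ 3 ≤ p ^ 2 := by omega
        exact_mod_cast this
      obtain ⟨v, hvdef⟩ : ∃ v : ℝ, v = (p : ℝ) ^ (1 / 3 : ℝ) := ⟨_, rfl⟩
      have hv3 : v ^ 3 = p := by
        rw [hvdef, ← Real.rpow_natCast, ← Real.rpow_mul (by linarith)]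
        norm_num
      have hv1 : 1 ≤ v := by
        rw [hvdef]; exact Real.one_le_rpow hpR (by norm_num)
      have hvn : (n : ℝ) ≤ v ^ 2 := by
        have h1 : (n : ℝ) ^ 3 ≤ (v ^ 2) ^ 3 := by
          calc (n : ℝ) ^ 3 ≤ (p : ℝ) ^ 2 := hBR
            _ = (v ^ 2) ^ 3 := by rw [← hv3]; ring
        exact (pow_le_pow_iff_left₀ (by linarith) (by positivity) three_ne_zero).1 h1
      have hvn2 : v ≤ n := by
        have h1 : v ^ 3 ≤ (n : ℝ) ^ 3 := by
          rw [hv3]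
          calc (p : ℝ) ≤ (n : ℝ) ^ 2 := hpn2R
            _ ≤ (n : ℝ) ^ 3 := pow_le_pow_right₀ hnR (by norm_num)
        exact (pow_le_pow_iff_left₀ (by linarith) (by linarith) three_ne_zero).1 h1
      obtain ⟨w, hwdef⟩ : ∃ w : ℝ, w = n / v := ⟨_, rfl⟩
      have hwv : w * v = n := by rw [hwdef]; field_simp
      have hw1 : 1 ≤ w := by
        rw [hwdef, le_div_iff₀ (by linarith)]
        linarith
      obtain ⟨c1, c2, c3⟩ := ceil_le_127 w hw1
      obtain ⟨s, hs⟩ : ∃ s : ℕ, s = ⌈126 * w⌉₊ := ⟨_, rfl⟩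
      rw [← hs] at c1 c2 c3
      have hsR : (1 : ℝ) ≤ s := by exact_mod_cast c3
      have hsv : 126 * (n : ℝ) ≤ s * v := by nlinarith
      have hsp : 126 * (n : ℝ) ^ 2 ≤ s * p := by
        rw [← hv3]
        have h1 : (126 * (n : ℝ)) * n ≤ (s * v) * v ^ 2 :=
          mul_le_mul hsv hvn (by linarith) (by positivity)
        nlinarith
      have hssv : 126 * 126 * (n : ℝ) ^ 2 ≤ (s * v) * (s * v) := by
        have h1 : (126 * (n : ℝ)) * (126 * n) ≤ (s * v) * (s * v) :=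
          mul_le_mul hsv hsv (by positivity) (by positivity)
        nlinarith
      have hssp : 126 * 126 * (n : ℝ) ^ 2 ≤ s * s * p := by
        rw [← hv3]
        have h1 : ((s : ℝ) * v) * (s * v) * 1 ≤ ((s * v) * (s * v)) * v :=
          mul_le_mul_of_nonneg_left hv1 (by positivity)
        nlinarith
      have hsss : 126 * 126 * 126 * (n : ℝ) ^ 3 ≤ s * s * s * p := by
        rw [← hv3]
        have h1 : (126 * 126 * (n : ℝ) ^ 2) * (126 * n) ≤ ((s * v) * (s * v)) * (s * v) :=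
          mul_le_mul hssv hsv (by positivity) (by positivity)
        nlinarith
      refine ⟨p, s, s, 3 * n, c3, c3, hp1, hp3, by positivity, by nlinarith, ?_, by nlinarith, ?_, ?_, ?_, ?_⟩
      · have : min (n : ℝ) p ≤ n := min_le_left _ _
        nlinarith
      · nlinarith
      · nlinarith
      · have h2 : 0 ≤ (n : ℝ) ^ 3 := by positivity
        nlinarith
      · have hb : (n : ℝ) ^ 2 / (3 * v ^ 2) ≤ bound n m := by
          refine le_trans ?_ (le_max_left _ _)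
          refine div_le_div_of_nonneg_left (by positivity) (by positivity) ?_
          have h1 : (m : ℝ) ^ (2 / 3 : ℝ) ≤ (3 * (p : ℝ)) ^ (2 / 3 : ℝ) :=
            Real.rpow_le_rpow (by linarith) hmpR (by norm_num)
          have h2 : (3 * (p : ℝ)) ^ (2 / 3 : ℝ) = (3 : ℝ) ^ (2 / 3 : ℝ) * v ^ 2 := by
            rw [Real.mul_rpow (by norm_num) (by linarith), hvdef, ← Real.rpow_natCast,
              ← Real.rpow_mul (by linarith)]
            norm_num
          have h3 : (3 : ℝ) ^ (2 / 3 : ℝ) ≤ 3 := by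
            calc (3 : ℝ) ^ (2 / 3 : ℝ) ≤ (3 : ℝ) ^ (1 : ℝ) :=
                  Real.rpow_le_rpow_of_exponent_le (by norm_num) (by norm_num)
              _ = 3 := Real.rpow_one 3
          rw [h2] at h1
          exact h1.trans (mul_le_mul_of_nonneg_right h3 (by positivity))
        have hb2 : (n : ℝ) ^ 2 / (3 * v ^ 2) = w * w / 3 := by rw [hwdef]; field_simp
        rw [hb2] at hb
        push_cast
        have h1 : (s : ℝ) * s ≤ (127 * w) * (127 * w) :=
          mul_le_mul c2 c2 (by linarith) (by linarith)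
        nlinarith

end ETFar
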