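import Pool.Agent.H29.ET.Defs

open Finset

namespace ETFar

/-- the statement of `second` -/
def SECOND_S : Prop := ∀ (n s₁ s₂ s₃ : ℕ) (_ : 1 ≤ s₁) (_ : 1 ≤ s₂) (_ : 1 ≤ s₃) (_ : 1 ≤ n)
    (P : Finset (Fin n × Fin n × Fin n)) (_ : 1 ≤ P.card) (D₁ D₂ D₃ : ℝ)
    (_ : ∀ t ∈ P, ∀ t' ∈ P, t.1 = t'.1 → t.2.1 = t'.2.1 → t = t')
    (_ : ∀ t ∈ P, ∀ t' ∈ P, t.1 = t'.1 → t.2.2 = t'.2.2 → t = t')
    (_ : ∀ t ∈ P, ∀ t' ∈ P, t.2.1 = t'.2.1 → t.2.2 = t'.2.2 → t = t')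
    (_ : ∀ v, ((P.filter fun t => t.1 = v).card : ℝ) ≤ D₁)
    (_ : ∀ v, ((P.filter fun t => t.2.1 = v).card : ℝ) ≤ D₂)
    (_ : ∀ v, ((P.filter fun t => t.2.2 = v).card : ℝ) ≤ D₃),
    ((univ.filter fun σ : (Fin s₁ → Fin n) × (Fin s₂ → Fin n) × (Fin s₃ → Fin n) =>
        ¬ ∃ a b c, (σ.1 a, σ.2.1 b, σ.2.2 c) ∈ P).card : ℝ) ≤
      (n * D₁ / (s₁ * P.card) + n * D₂ / (s₂ * P.card) + n * D₃ / (s₃ * P.card) +
        n ^ 2 / (s₁ * s₂ * P.card) + n ^ 2 / (s₁ * s₃ * P.card) + n ^ 2 / (s₂ * s₃ * P.card) +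
        n ^ 3 / (s₁ * s₂ * s₃ * P.card)) * (n : ℝ) ^ (s₁ + s₂ + s₃)

/-- the statement of `packing` -/
def PACKING_S : Prop := ∀ {n : ℕ} (x : Inst n) (_ : Valid x) (m p : ℕ) (_ : Far m x)
    (_ : 3 * p < m + 3) (D : ℝ) (_ : 0 ≤ D) (_ : 9 * (p : ℝ) ≤ D ^ 2),
    ∃ P : Finset (Fin n × Fin n × Fin n), (∀ t ∈ P, Zero x t.1 t.2.1 t.2.2) ∧
      (∀ t ∈ P, ∀ t' ∈ P, t.1 = t'.1 → t.2.1 = t'.2.1 → t = t') ∧
      (∀ t ∈ P, ∀ t' ∈ P, t.1 = t'.1 → t.2.2 = t'.2.2 → t = t') ∧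
      (∀ t ∈ P, ∀ t' ∈ P, t.2.1 = t'.2.1 → t.2.2 = t'.2.2 → t = t') ∧
      p ≤ 2 * P.card ∧ P.card ≤ p ∧
      (∀ v, ((P.filter fun t => t.2.1 = v).card : ℝ) ≤ D) ∧
      (∀ v, ((P.filter fun t => t.2.2 = v).card : ℝ) ≤ D)

/-- the statement of `sampler` -/
def SAMPLER_S : Prop := ∀ (n s₁ s₂ s₃ : ℕ),
    ∃ A : (Fin s₁ → Fin n) × (Fin s₂ → Fin n) × (Fin s₃ → Fin n) →
        Tree (Fin n × Fin n) (Bool × ℤ),
      (∀ σ x, (A σ).reads x ≤ s₁ * s₂ + s₂ * s₃ + s₁ * s₃) ∧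
      ∀ σ x, (A σ).run x = true ↔ ∃ a b c, Zero x (σ.1 a) (σ.2.1 b) (σ.2.2 c)

theorem upper_term {a b c p : ℝ} (hc : 0 < c) (hb : 0 < b) (hp : p ≤ 2 * c)
    (h : 42 * a ≤ b * p) : a / (b * c) ≤ 2 / 42 := by
  rw [div_le_iff₀ (by positivity)]
  have : b * p ≤ b * (2 * c) := mul_le_mul_of_nonneg_left hp hb.le
  linarith

theorem upper (hsecond : SECOND_S) (hpacking : PACKING_S) (hsampler : SAMPLER_S)
    (n m p s₁ s : ℕ) (D : ℝ) (hn : 1 ≤ n) (h₁ : 1 ≤ s₁) (h₂ : 1 ≤ s) (hp1 : 1 ≤ p)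
    (hp : 3 * p < m + 3) (hD0 : 0 ≤ D) (hD : 9 * (p : ℝ) ≤ D ^ 2)
    (hs1 : 42 * (n * min (n : ℝ) p) ≤ s₁ * p) (hs2 : 42 * (n * D) ≤ s * p)
    (hs3 : 42 * (n : ℝ) ^ 2 ≤ s₁ * s * p) (hs4 : 42 * (n : ℝ) ^ 2 ≤ s * s * p)
    (hs5 : 42 * (n : ℝ) ^ 3 ≤ s₁ * s * s * p) :
    ∃ (Ω : Type) (_ : Fintype Ω) (μ : Ω → ℝ), (∀ ω, 0 ≤ μ ω) ∧ ∑ ω, μ ω = 1 ∧
      ∃ A : Ω → Tree (Fin n × Fin n) (Bool × ℤ),
        (∀ ω x, (A ω).reads x ≤ 2 * (s₁ * s) + s * s) ∧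
        (∀ x ω, (A ω).run x = true → ∃ i j k, Zero x i j k) ∧
        (∀ x, Valid x → Far m x → 2 / 3 ≤ ∑ ω with (A ω).run x = true, μ ω) := by
  classical
  obtain ⟨A, hA1, hA2⟩ := hsampler n s₁ s s
  have hcard : (Fintype.card ((Fin s₁ → Fin n) × (Fin s → Fin n) × (Fin s → Fin n)) : ℝ) =
      (n : ℝ) ^ (s₁ + s + s) := by
    simp only [Fintype.card_prod, Fintype.card_pi, Fintype.card_fin, prod_const, card_univ]
    push_cast
    ring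
  have hnR : (1 : ℝ) ≤ n := by exact_mod_cast hn
  have hpos : (0 : ℝ) < (n : ℝ) ^ (s₁ + s + s) := by positivity
  refine ⟨(Fin s₁ → Fin n) × (Fin s → Fin n) × (Fin s → Fin n), inferInstance,
    fun _ => ((n : ℝ) ^ (s₁ + s + s))⁻¹, fun _ => by positivity, ?_, A, ?_, ?_, ?_⟩
  · rw [sum_const, nsmul_eq_mul, card_univ, hcard]
    exact mul_inv_cancel₀ hpos.ne'
  · intro ω x
    refine (hA1 ω x).trans (le_of_eq ?_)
    ring
  · intro x ω h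
    obtain ⟨a, b, c, h3⟩ := (hA2 ω x).1 h
    exact ⟨_, _, _, h3⟩
  · intro x hx hF
    obtain ⟨P, hz, c12, c13, c23, hpc, hcp, d2, d3⟩ := hpacking x hx m p hF hp D hD0 hD
    have hPc : 1 ≤ P.card := by omega
    have d1 : ∀ v, ((P.filter fun t => t.1 = v).card : ℝ) ≤ min (n : ℝ) P.card := by
      intro v
      refine le_min ?_ ?_
      · have h1 : (P.filter fun t => t.1 = v).card ≤ (univ : Finset (Fin n)).card := by
          apply Finset.card_le_card_of_injOn (fun t => t.2.1) (fun _ _ => by simp)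
          intro t ht t' ht' he
          have ht := Finset.mem_filter.1 (Finset.mem_coe.1 ht)
          have ht' := Finset.mem_filter.1 (Finset.mem_coe.1 ht')
          exact c12 t ht.1 t' ht'.1 (by rw [ht.2, ht'.2]) he
        rw [card_univ, Fintype.card_fin] at h1
        exact_mod_cast h1
      · exact_mod_cast Finset.card_filter_le _ _
    have hb := hsecond n s₁ s s h₁ h₂ h₂ hn P hPc _ D D c12 c13 c23 d1 d2 d3
    have hcR : (1 : ℝ) ≤ P.card := by exact_mod_cast hPc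
    have hs1R : (1 : ℝ) ≤ s₁ := by exact_mod_cast h₁
    have hsR : (1 : ℝ) ≤ s := by exact_mod_cast h₂
    have hpR : (p : ℝ) ≤ 2 * P.card := by exact_mod_cast hpc
    have hcpR : (P.card : ℝ) ≤ p := by exact_mod_cast hcp
    have t1 : n * min (n : ℝ) P.card / (s₁ * P.card) ≤ 2 / 42 := by
      apply upper_term (by linarith) (by linarith) hpR
      refine le_trans ?_ hs1
      have : min (n : ℝ) P.card ≤ min (n : ℝ) p := min_le_min le_rfl hcpR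
      have h5 : (n : ℝ) * min (n : ℝ) P.card ≤ n * min (n : ℝ) p :=
        mul_le_mul_of_nonneg_left this (by linarith)
      linarith
    have t2 : n * D / (s * P.card) ≤ 2 / 42 := upper_term (by linarith) (by linarith) hpR hs2
    have t3 : (n : ℝ) ^ 2 / (s₁ * s * P.card) ≤ 2 / 42 :=
      upper_term (by linarith) (by positivity) hpR hs3
    have t4 : (n : ℝ) ^ 2 / (s * s * P.card) ≤ 2 / 42 :=
      upper_term (by linarith) (by positivity) hpR hs4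
    have t5 : (n : ℝ) ^ 3 / (s₁ * s * s * P.card) ≤ 2 / 42 :=
      upper_term (by linarith) (by positivity) hpR hs5
    have hb2 : ((univ.filter fun σ : (Fin s₁ → Fin n) × (Fin s → Fin n) × (Fin s → Fin n) =>
        ¬ ∃ a b c, (σ.1 a, σ.2.1 b, σ.2.2 c) ∈ P).card : ℝ) ≤
        1 / 3 * (n : ℝ) ^ (s₁ + s + s) := by
      refine hb.trans (mul_le_mul_of_nonneg_right ?_ hpos.le)
      linarith
    have hsub : (univ.filter fun σ : (Fin s₁ → Fin n) × (Fin s → Fin n) × (Fin s → Fin n) =>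
        ¬ (A σ).run x = true) ⊆ univ.filter fun σ => ¬ ∃ a b c, (σ.1 a, σ.2.1 b, σ.2.2 c) ∈ P := by
      intro σ hσ
      rw [mem_filter] at hσ ⊢
      refine ⟨hσ.1, ?_⟩
      rintro ⟨a, b, c, h⟩
      exact hσ.2 ((hA2 σ x).2 ⟨a, b, c, hz _ h⟩)
    have hle : ((univ.filter fun σ : (Fin s₁ → Fin n) × (Fin s → Fin n) × (Fin s → Fin n) =>
        ¬ (A σ).run x = true).card : ℝ) ≤ 1 / 3 * (n : ℝ) ^ (s₁ + s + s) :=
      le_trans (by exact_mod_cast Finset.card_le_card hsub) hb2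
    have htot := Finset.card_filter_add_card_filter_not
      (s := (univ : Finset ((Fin s₁ → Fin n) × (Fin s → Fin n) × (Fin s → Fin n))))
      (fun σ => (A σ).run x = true)
    rw [card_univ] at htot
    have htotR : ((univ.filter fun σ : (Fin s₁ → Fin n) × (Fin s → Fin n) × (Fin s → Fin n) =>
        (A σ).run x = true).card : ℝ) + ((univ.filter fun σ : (Fin s₁ → Fin n) ×
          (Fin s → Fin n) × (Fin s → Fin n) => ¬ (A σ).run x = true).card : ℝ) =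
        (n : ℝ) ^ (s₁ + s + s) := by
      rw [← hcard, ← htot]
      push_cast
      rfl
    rw [sum_const, nsmul_eq_mul]
    have h9 : 2 / 3 * (n : ℝ) ^ (s₁ + s + s) ≤ ((univ.filter fun σ : (Fin s₁ → Fin n) ×
        (Fin s → Fin n) × (Fin s → Fin n) => (A σ).run x = true).card : ℝ) := by linarith
    calc (2 : ℝ) / 3 = 2 / 3 * (n : ℝ) ^ (s₁ + s + s) * ((n : ℝ) ^ (s₁ + s + s))⁻¹ := by
          field_simp
      _ ≤ _ := mul_le_mul_of_nonneg_right h9 (by positivity)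

end ETFar
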